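import Pool.Agent.Helper59.RC.UniBasic

/-!
Module RG-8.  Small unimodular sets are decomposable, and the elementary steps of the induction.

`dec_empty`, `dec_single`: `Dec.graphic` with `W = Fin 2`; for `{x}`, `x ≠ 0`, choose a linear
functional `f` with `f x = 1` and `φ y = f y • (Pi.single 0 1 - Pi.single 1 1)`; for `x = 0` or the
empty set `φ = 0`.
`dec_tri`: `Dec.graphic` with `W = Fin 3`; `P, Q` dual functionals of `p, q`,
`φ y = P y • (ε 0 - ε 1) + Q y • (ε 1 - ε 2)`.
`dec_sub`: `Dec.emb` with the identity.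
`dec_sum0`, `dec_sum1`: `Dec.sum` with `p = q = 0`, and with `q = 0`.
-/

namespace RC.Gut

open Submodule Module

variable {V : Type} [AddCommGroup V] [Module ℚ V]

theorem dec_sub {X Y : Set V} (hY : Dec V Y) (h : ∀ x ∈ X, x = 0 ∨ x ∈ Y ∨ -x ∈ Y) :
    Dec V X :=
  Dec.emb X Y LinearMap.id (fun y _ hy => hy) (fun x hx => h x hx) hY

theorem exists_dual {x : V} (hx : x ≠ 0) : ∃ f : V →ₗ[ℚ] ℚ, f x = 1 := by
  obtain ⟨f, hf⟩ := LinearMap.exists_leftInverse_of_injective
    (LinearMap.toSpanSingleton ℚ V x) (LinearMap.ker_toSpanSingleton ℚ hx)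
  refine ⟨f, ?_⟩
  have h := LinearMap.congr_fun hf 1
  simpa using h

theorem dec_empty : Dec V (∅ : Set V) := by
  refine Dec.graphic ∅ (Fin 2) 0 ?_ ?_
  · intro y hy _
    simpa using hy
  · intro x hx
    exact absurd hx (Set.notMem_empty x)

theorem dec_single {x : V} (hx : x ≠ 0) : Dec V ({x} : Set V) := by
  obtain ⟨f, hf⟩ := exists_dual hx
  refine Dec.graphic {x} (Fin 2) (f.smulRight (Pi.single 0 1 - Pi.single 1 1)) ?_ ?_
  · intro y hy h0
    obtain ⟨t, rfl⟩ := mem_span_singleton.1 hy
    have h1 := congrFun h0 0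
    simp [hf] at h1
    rw [h1, zero_smul]
  · intro y hy
    rw [Set.mem_singleton_iff] at hy
    subst hy
    refine ⟨0, 1, ?_⟩
    simp [hf]

theorem dec_tri {p q : V} (li : LinearIndependent ℚ ![p, q]) :
    Dec V ({p, q, p + q} : Set V) := by
  have hinj := linearIndependent_iff_injective_fintypeLinearCombination.1 li
  obtain ⟨g, hg⟩ := LinearMap.exists_leftInverse_of_injective
    (Fintype.linearCombination ℚ ![p, q]) (LinearMap.ker_eq_bot.2 hinj)
  have h0 : g p = Pi.single 0 1 := by
    have h := LinearMap.congr_fun hg (Pi.single (0 : Fin 2) (1 : ℚ))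
    simpa [Fintype.linearCombination_apply_single] using h
  have h1 : g q = Pi.single 1 1 := by
    have h := LinearMap.congr_fun hg (Pi.single (1 : Fin 2) (1 : ℚ))
    simpa [Fintype.linearCombination_apply_single] using h
  let P : V →ₗ[ℚ] ℚ := (LinearMap.proj 0).comp g
  let Q : V →ₗ[ℚ] ℚ := (LinearMap.proj 1).comp g
  have hPp : P p = 1 := by simp [P, h0]
  have hPq : P q = 0 := by simp [P, h1]
  have hQp : Q p = 0 := by simp [Q, h0]
  have hQq : Q q = 1 := by simp [Q, h1]
  refine Dec.graphic {p, q, p + q} (Fin 3)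
    (P.smulRight (Pi.single 0 1 - Pi.single 1 1) + Q.smulRight (Pi.single 1 1 - Pi.single 2 1))
    ?_ ?_
  · intro y hy hz
    have hy' : y ∈ span ℚ ({p, q} : Set V) := by
      have hle : span ℚ ({p, q, p + q} : Set V) ≤ span ℚ ({p, q} : Set V) := by
        rw [span_le]
        rintro w (rfl | rfl | rfl)
        · exact subset_span (by simp)
        · exact subset_span (by simp)
        · exact add_mem (subset_span (by simp)) (subset_span (by simp))
      exact hle hy
    obtain ⟨s, t, rfl⟩ := mem_span_pair.1 hy'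
    have e0 := congrFun hz 0
    have e2 := congrFun hz 2
    simp [hPp, hPq, hQp, hQq] at e0 e2
    rw [e0, e2, zero_smul, zero_smul, add_zero]
  · rintro x (rfl | rfl | rfl)
    · exact ⟨0, 1, by simp [hPp, hQp]⟩
    · exact ⟨1, 2, by simp [hPq, hQq]⟩
    · refine ⟨0, 2, ?_⟩
      simp [hPp, hPq, hQp, hQq]

theorem dec_sum0 {A B : Set V} (h : span ℚ A ⊓ span ℚ B = ⊥) (hA : Dec V A) (hB : Dec V B) :
    Dec V (A ∪ B) := by
  have key : ∀ X : Set V, span ℚ (X ∪ {(0 : V), 0}) = span ℚ X := by
    intro X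
    rw [Set.pair_eq_singleton, Set.union_singleton, span_insert_zero]
  refine Dec.sum A B 0 0 (Or.inr rfl) ?_ ?_ ?_
  · rw [key, key, h, Set.pair_eq_singleton, span_zero_singleton]
  · refine dec_sub hA ?_
    rintro x (hx | (rfl | rfl | hx))
    · exact Or.inr (Or.inl hx)
    · exact Or.inl rfl
    · exact Or.inl rfl
    · left
      rw [Set.mem_singleton_iff] at hx
      rw [hx, add_zero]
  · refine dec_sub hB ?_
    rintro x (hx | (rfl | rfl | hx))
    · exact Or.inr (Or.inl hx)
    · exact Or.inl rfl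
    · exact Or.inl rfl
    · left
      rw [Set.mem_singleton_iff] at hx
      rw [hx, add_zero]

theorem dec_sum1 {A B : Set V} {p : V} (h : span ℚ A ⊓ span ℚ B = span ℚ {p})
    (hA : Dec V (A ∪ {p})) (hB : Dec V (B ∪ {p})) : Dec V (A ∪ B) := by
  have hpA : p ∈ span ℚ A := by
    have : p ∈ span ℚ A ⊓ span ℚ B := by rw [h]; exact mem_span_singleton_self p
    exact this.1
  have hpB : p ∈ span ℚ B := by
    have : p ∈ span ℚ A ⊓ span ℚ B := by rw [h]; exact mem_span_singleton_self p
    exact this.2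
  have key : ∀ X : Set V, p ∈ span ℚ X → span ℚ (X ∪ {p, (0 : V)}) = span ℚ X := by
    intro X hX
    apply le_antisymm
    · rw [span_le]
      rintro y (hy | (rfl | rfl))
      · exact subset_span hy
      · exact hX
      · exact zero_mem _
    · exact span_mono Set.subset_union_left
  have hd : ∀ X : Set V, Dec V (X ∪ {p}) → Dec V (X ∪ {p, 0, p + 0}) := by
    intro X hX
    refine dec_sub hX ?_
    rintro x (hx | (rfl | rfl | hx))
    · exact Or.inr (Or.inl (Or.inl hx))
    · exact Or.inr (Or.inl (Or.inr rfl))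
    · exact Or.inl rfl
    · rw [Set.mem_singleton_iff, add_zero] at hx
      exact Or.inr (Or.inl (Or.inr hx))
  refine Dec.sum A B p 0 (Or.inr rfl) ?_ (hd A hA) (hd B hB)
  rw [key A hpA, key B hpB, h, Set.pair_comm, span_insert_zero]

theorem dec_sum2 {A B : Set V} {p q : V} (li : LinearIndependent ℚ ![p, q])
    (h : span ℚ A ⊓ span ℚ B = span ℚ {p, q})
    (hA : Dec V (A ∪ {p, q, p + q})) (hB : Dec V (B ∪ {p, q, p + q})) : Dec V (A ∪ B) := by
  have hsub : ({p, q} : Set V) ⊆ (span ℚ A : Set V) ∩ (span ℚ B : Set V) := by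
    intro x hx
    have : x ∈ span ℚ A ⊓ span ℚ B := by rw [h]; exact subset_span hx
    exact this
  have key : ∀ X : Set V, ({p, q} : Set V) ⊆ (span ℚ X : Set V) →
      span ℚ (X ∪ {p, q}) = span ℚ X := by
    intro X hX
    apply le_antisymm
    · rw [span_le]
      rintro y (hy | hy)
      · exact subset_span hy
      · exact hX hy
    · exact span_mono Set.subset_union_left
  refine Dec.sum A B p q (Or.inl li) ?_ hA hB
  rw [key A (fun x hx => (hsub hx).1), key B (fun x hx => (hsub hx).2), h]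

end RC.Gut
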