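import Pool.Agent.Helper59.RG.Three
import Pool.Agent.Helper59.RG.Small

/-!
Module RG-9.  The induction for the decomposition theorem: 1-, 2- and 3-separations.
-/

namespace RC.Gut

open Submodule Module

variable {V : Type} [AddCommGroup V] [Module ℚ V]

/-- Finite unimodular sets without zero and without parallel elements. -/
structure Nice (X : Set V) : Prop where
  fin : X.Finite
  uni : Uni X
  ne : (0 : V) ∉ X
  par : ∀ x ∈ X, -x ∉ X

/-- No 1-separation and no 2-separation. -/
def Conn3 (X : Set V) : Prop :=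
  ∀ A B : Set V, A ∪ B = X → Disjoint A B →
    (finrank ℚ (span ℚ A ⊓ span ℚ B : Submodule ℚ V) = 0 → A = ∅ ∨ B = ∅) ∧
    (finrank ℚ (span ℚ A ⊓ span ℚ B : Submodule ℚ V) = 1 → A.ncard ≤ 1 ∨ B.ncard ≤ 1)

theorem exists_clean {X : Set V} (hX : X.Finite) :
    ∃ X' ⊆ X, (0 : V) ∉ X' ∧ (∀ x ∈ X', -x ∉ X') ∧ ∀ x ∈ X, x = 0 ∨ x ∈ X' ∨ -x ∈ X' := by
  induction X, hX using Set.Finite.induction_on with
  | empty => exact ⟨∅, subset_rfl, by simp, by simp, by simp⟩
  | @insert a s ha hs ih =>
    obtain ⟨X', h1, h2, h3, h4⟩ := ih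
    by_cases hc : a = 0 ∨ a ∈ X' ∨ -a ∈ X'
    · refine ⟨X', h1.trans (Set.subset_insert _ _), h2, h3, ?_⟩
      rintro x (rfl | hx)
      · exact hc
      · exact h4 x hx
    · push Not at hc
      obtain ⟨c1, c2, c3⟩ := hc
      have hne : a ≠ -a := fun h => c1 (by
        have : (2 : ℚ) • a = 0 := by
          rw [two_smul]
          nth_rewrite 1 [h]
          rw [neg_add_cancel]
        exact (smul_eq_zero.1 this).resolve_left (by norm_num))
      refine ⟨insert a X', Set.insert_subset_insert h1, ?_, ?_, ?_⟩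
      · rintro (h | h)
        · exact c1 h.symm
        · exact h2 h
      · rintro x (rfl | hx)
        · rintro (h | h)
          · exact hne h.symm
          · exact c3 h
        · rintro (h | h)
          · exact c3 (by rw [← h, neg_neg]; exact hx)
          · exact h3 x hx h
      · rintro x (rfl | hx)
        · exact Or.inr (Or.inl (Set.mem_insert _ _))
        · rcases h4 x hx with h | h | h
          · exact Or.inl h
          · exact Or.inr (Or.inl (Set.mem_insert_of_mem _ h))
          · exact Or.inr (Or.inr (Set.mem_insert_of_mem _ h))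

theorem finrank_singleton_inf {U : Submodule ℚ V} {a : V} (ha : a ≠ 0) (h : U = span ℚ {a}) :
    finrank ℚ U = 1 := by
  rw [h]
  exact finrank_span_singleton ha

/-- A split side of a separation gives a 2-separation. -/
theorem split_inf {T' T'' B : Set V} {a a' : V} (haa : span ℚ {a, a'} = span ℚ B ⊓ span ℚ (T' ∪ T''))
    (ha : a ∈ span ℚ T') (ha' : a' ∈ span ℚ T'') (h0 : span ℚ T' ⊓ span ℚ T'' = ⊥) :
    span ℚ T' ⊓ span ℚ (T'' ∪ B) = span ℚ {a} := by
  have haB : a ∈ span ℚ B := by
    have : a ∈ span ℚ B ⊓ span ℚ (T' ∪ T'') := by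
      rw [← haa]; exact subset_span (by simp)
    exact this.1
  apply le_antisymm
  · rintro y ⟨hy1, hy2⟩
    rw [span_union] at hy2
    obtain ⟨w, hw, b, hb, hwb⟩ := mem_sup.1 hy2
    have hbT : b ∈ span ℚ (T' ∪ T'') := by
      have hy' : y ∈ span ℚ (T' ∪ T'') := span_mono Set.subset_union_left hy1
      have hw' : w ∈ span ℚ (T' ∪ T'') := span_mono Set.subset_union_right hw
      have : b = y - w := by rw [← hwb]; abel
      rw [this]
      exact sub_mem hy' hw'
    have hbU : b ∈ span ℚ ({a, a'} : Set V) := by rw [haa]; exact ⟨hb, hbT⟩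
    obtain ⟨s, t, rfl⟩ := mem_span_pair.1 hbU
    have h1 : y - s • a = w + t • a' := by rw [← hwb]; abel
    have h2 : y - s • a ∈ span ℚ T' ⊓ span ℚ T'' := by
      refine ⟨sub_mem hy1 (smul_mem _ _ ha), ?_⟩
      rw [h1]
      exact add_mem hw (smul_mem _ _ ha')
    rw [h0, mem_bot, sub_eq_zero] at h2
    rw [h2]
    exact smul_mem _ _ (mem_span_singleton_self a)
  · rw [span_le]
    rintro y (rfl : y = a)
    exact ⟨ha, span_mono Set.subset_union_right haB⟩

theorem good_of_conn {A B : Set V} (hA : A.Finite) (hB : B.Finite) (hX : Uni (A ∪ B))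
    (hd : Disjoint A B) (hc : Conn3 (A ∪ B)) (h3 : 3 ≤ A.ncard) (h2 : 2 ≤ B.ncard)
    (hf : finrank ℚ (span ℚ B ⊓ span ℚ A : Submodule ℚ V) = 2) :
    Good (span ℚ B ⊓ span ℚ A) A := by
  rcases dich (S := B) (T := A) hA (by rw [Set.union_comm]; exact hX) hf with h | h
  · exact h
  · exfalso
    obtain ⟨T', T'', a, a', hT, hdT, li, haU, haU', ha, ha', h0⟩ := h
    have hfd : FiniteDimensional ℚ (span ℚ B ⊓ span ℚ A : Submodule ℚ V) := by
      have : FiniteDimensional ℚ (span ℚ A) := FiniteDimensional.span_of_finite ℚ hA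
      exact Submodule.finiteDimensional_inf_right _ _
    have hspan : span ℚ ({a, a'} : Set V) = span ℚ B ⊓ span ℚ A := by
      refine Submodule.eq_of_le_of_finrank_eq ?_ ?_
      · rw [span_le]
        rintro y (rfl | rfl)
        · exact haU
        · exact haU'
      · rw [hf]
        have h1 := finrank_span_eq_card li
        rw [Fintype.card_fin, Matrix.range_cons, Matrix.range_cons, Matrix.range_empty,
          Set.union_empty, Set.singleton_union] at h1
        exact h1
    have hTf' : T'.Finite := hA.subset (by rw [← hT]; exact Set.subset_union_left)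
    have hTf'' : T''.Finite := hA.subset (by rw [← hT]; exact Set.subset_union_right)
    have hcard : T'.ncard + T''.ncard = A.ncard := by
      rw [← hT, Set.ncard_union_eq hdT hTf' hTf'']
    have hdA' : Disjoint T' B := hd.mono_left (by rw [← hT]; exact Set.subset_union_left)
    have hdA'' : Disjoint T'' B := hd.mono_left (by rw [← hT]; exact Set.subset_union_right)
    have hane : a ≠ 0 := by simpa using li.ne_zero 0
    have hane' : a' ≠ 0 := by simpa using li.ne_zero 1
    have hle : ∀ T : Set V, T.Finite → 2 ≤ (T ∪ B).ncard := by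
      intro T hTf
      exact h2.trans (Set.ncard_le_ncard Set.subset_union_right (hTf.union hB))
    rcases le_or_gt 2 T'.ncard with h | h
    · have e1 : span ℚ T' ⊓ span ℚ (T'' ∪ B) = span ℚ {a} :=
        split_inf (by rw [hspan, hT]) ha ha' h0
      have e2 := (hc T' (T'' ∪ B) (by rw [← Set.union_assoc, hT])
        (Set.disjoint_union_right.2 ⟨hdT, hdA'⟩)).2 (finrank_singleton_inf hane e1)
      have := hle T'' hTf''
      omega
    · have e1 : span ℚ T'' ⊓ span ℚ (T' ∪ B) = span ℚ {a'} :=
        split_inf (a := a') (a' := a)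
          (by rw [Set.pair_comm, hspan, Set.union_comm T'' T', hT]) ha' ha
          (by rw [inf_comm]; exact h0)
      have e2 := (hc T'' (T' ∪ B)
        (by rw [← Set.union_assoc, Set.union_comm T'' T', hT])
        (Set.disjoint_union_right.2 ⟨hdT.symm, hdA''⟩)).2 (finrank_singleton_inf hane' e1)
      have := hle T' hTf'
      omega

/-- Sets with at most three elements. -/
theorem dec_small {X : Set V} (hN : Nice X) (hc : Conn3 X) (h : X.ncard ≤ 3) : Dec V X := by
  have hne : ∀ x ∈ X, x ≠ 0 := fun x hx h0 => hN.ne (h0 ▸ hx)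
  have hli : ∀ x ∈ X, ∀ y ∈ X, x ≠ y → LinearIndependent ℚ ![x, y] := by
    intro x hx y hy hxy
    by_contra hcon
    rcases uni_par hN.uni hx hy (hne x hx) (hne y hy) hcon with h1 | h1
    · exact hxy h1.symm
    · exact hN.par x hx (h1 ▸ hy)
  have h' : X.ncard = 0 ∨ X.ncard = 1 ∨ X.ncard = 2 ∨ X.ncard = 3 := by omega
  rcases h' with h' | h' | h' | h'
  · rw [Set.ncard_eq_zero hN.fin] at h'
    rw [h']
    exact dec_empty
  · obtain ⟨x, rfl⟩ := Set.ncard_eq_one.1 h'
    exact dec_single (hne x rfl)
  · exfalso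
    obtain ⟨x, y, hxy, rfl⟩ := Set.ncard_eq_two.1 h'
    have li := hli x (by simp) y (by simp) hxy
    have h0 : span ℚ ({x} : Set V) ⊓ span ℚ {y} = ⊥ := by
      rw [eq_bot_iff]
      rintro w ⟨h1, h2⟩
      obtain ⟨s, rfl⟩ := mem_span_singleton.1 h1
      obtain ⟨t, ht⟩ := mem_span_singleton.1 h2
      have := (LinearIndependent.pair_iff.1 li) s (-t) (by rw [← ht]; module)
      rw [this.1, zero_smul]
      exact zero_mem _
    have := (hc {x} {y} (by rw [Set.singleton_union]) (by simpa using hxy)).1
      (by rw [h0]; exact finrank_bot ℚ V)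
    simp at this
  · obtain ⟨x, y, z, hxy, hxz, hyz, rfl⟩ := Set.ncard_eq_three.1 h'
    have li := hli x (by simp) y (by simp) hxy
    by_cases hz : z ∈ span ℚ ({x, y} : Set V)
    · obtain ⟨s, t, hst⟩ := mem_span_pair.1 hz
      have hu := uni_coord hN.uni ![x, y] Finset.univ
        (by intro i _; fin_cases i <;> simp)
        (by rw [Finset.coe_univ, linearIndepOn_univ_iff]; exact li) ![s, t]
        (by
          have : ∑ i : Fin 2, ![s, t] i • ![x, y] i = z := by
            rw [Fin.sum_univ_two]; simpa using hst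
          rw [this]; simp)
      have hs := hu 0 (Finset.mem_univ _)
      have ht := hu 1 (Finset.mem_univ _)
      simp only [Matrix.cons_val_zero, Matrix.cons_val_one] at hs ht
      have hs0 : s ≠ 0 := by
        rintro rfl
        rw [zero_smul, zero_add] at hst
        rcases ht with rfl | rfl | rfl
        · exact hne z (by simp) (by rw [← hst, zero_smul])
        · exact hyz (by rw [← hst, one_smul])
        · exact hN.par y (by simp) (by rw [neg_one_smul] at hst; rw [hst]; simp)
      have ht0 : t ≠ 0 := by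
        rintro rfl
        rw [zero_smul, add_zero] at hst
        rcases hs with rfl | rfl | rfl
        · exact hs0 rfl
        · exact hxz (by rw [← hst, one_smul])
        · exact hN.par x (by simp) (by rw [neg_one_smul] at hst; rw [hst]; simp)
      have hs' := hs.resolve_left hs0
      have ht' := ht.resolve_left ht0
      have li' : LinearIndependent ℚ ![s • x, t • y] := by
        rw [LinearIndependent.pair_iff] at li ⊢
        intro a b hab
        have := li (a * s) (b * t) (by rw [← hab]; module)
        exact ⟨(mul_eq_zero.1 this.1).resolve_right hs0, (mul_eq_zero.1 this.2).resolve_right ht0⟩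
      refine dec_sub (dec_tri li') ?_
      rintro w (rfl | rfl | rfl)
      · right
        rcases hs' with rfl | rfl
        · left; simp
        · right; simp
      · right
        rcases ht' with rfl | rfl
        · left; simp
        · right; simp
      · right; left
        rw [← hst]
        simp
    · exfalso
      have h0 : span ℚ ({x, y} : Set V) ⊓ span ℚ {z} = ⊥ := by
        rw [eq_bot_iff]
        rintro w ⟨h1, h2⟩
        obtain ⟨t, rfl⟩ := mem_span_singleton.1 h2
        by_cases ht : t = 0
        · rw [ht, zero_smul]; exact zero_mem _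
        · exfalso
          apply hz
          have h3 := smul_mem (span ℚ ({x, y} : Set V)) t⁻¹ h1
          rwa [smul_smul, inv_mul_cancel₀ ht, one_smul] at h3
      have := (hc {x, y} {z} (by ext w; simp; tauto) (by
        rw [Set.disjoint_singleton_right]
        simp [hxz.symm, hyz.symm])).1 (by rw [h0]; exact finrank_bot ℚ V)
      rcases this with h1 | h1
      · exact absurd h1 (Set.insert_nonempty _ _).ne_empty
      · exact absurd h1 (Set.singleton_nonempty _).ne_empty

/-- The induction. -/
theorem uni_dec_of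
    (H : ∀ X : Set V, Nice X → Conn3 X → 4 ≤ X.ncard → Dec V X ∨ ∃ A B : Set V, A ∪ B = X ∧
      Disjoint A B ∧ 6 ≤ A.ncard ∧ 6 ≤ B.ncard ∧
      finrank ℚ (span ℚ A ⊓ span ℚ B : Submodule ℚ V) ≤ 2) (n : ℕ) :
    ∀ X : Set V, X.Finite → Uni X → X.ncard ≤ n → Dec V X := by
  induction n using Nat.strong_induction_on with
  | _ n ih =>
    intro X hfin hU hn
    obtain ⟨X', h1, h2, h3, h4⟩ := exists_clean hfin
    refine dec_sub ?_ h4
    have hN : Nice X' := ⟨hfin.subset h1, uni_mono hU (fun x hx => Or.inr (Or.inl (h1 hx))), h2, h3⟩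
    have hn' : X'.ncard ≤ n := (Set.ncard_le_ncard h1 hfin).trans hn
    have hsubf : ∀ A B : Set V, A ∪ B = X' → A.Finite ∧ B.Finite := by
      intro A B hAB
      exact ⟨hN.fin.subset (by rw [← hAB]; exact Set.subset_union_left),
        hN.fin.subset (by rw [← hAB]; exact Set.subset_union_right)⟩
    have hsubu : ∀ A B : Set V, A ∪ B = X' → Uni A ∧ Uni B := by
      intro A B hAB
      exact ⟨uni_mono hN.uni (fun x hx => Or.inr (Or.inl (by rw [← hAB]; exact Or.inl hx))),
        uni_mono hN.uni (fun x hx => Or.inr (Or.inl (by rw [← hAB]; exact Or.inr hx)))⟩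
    have hcard : ∀ A B : Set V, A ∪ B = X' → Disjoint A B → A.ncard + B.ncard = X'.ncard := by
      intro A B hAB hd
      rw [← hAB, Set.ncard_union_eq hd (hsubf A B hAB).1 (hsubf A B hAB).2]
    by_cases c1 : ∃ A B : Set V, A ∪ B = X' ∧ Disjoint A B ∧
        finrank ℚ (span ℚ A ⊓ span ℚ B : Submodule ℚ V) = 0 ∧ A.Nonempty ∧ B.Nonempty
    · obtain ⟨A, B, hAB, hd, hf, hA, hB⟩ := c1
      have f1 := hsubf A B hAB
      have u1 := hsubu A B hAB
      have k1 := hcard A B hAB hd
      have p1 := (Set.ncard_pos f1.1).2 hA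
      have p2 := (Set.ncard_pos f1.2).2 hB
      have hfd : FiniteDimensional ℚ (span ℚ A ⊓ span ℚ B : Submodule ℚ V) := by
        have : FiniteDimensional ℚ (span ℚ A) := FiniteDimensional.span_of_finite ℚ f1.1
        exact Submodule.finiteDimensional_inf_left _ _
      rw [← hAB]
      exact dec_sum0 (Submodule.finrank_eq_zero.1 hf)
        (ih A.ncard (by omega) A f1.1 u1.1 le_rfl) (ih B.ncard (by omega) B f1.2 u1.2 le_rfl)
    by_cases c2 : ∃ A B : Set V, A ∪ B = X' ∧ Disjoint A B ∧
        finrank ℚ (span ℚ A ⊓ span ℚ B : Submodule ℚ V) = 1 ∧ 2 ≤ A.ncard ∧ 2 ≤ B.ncard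
    · obtain ⟨A, B, hAB, hd, hf, hA, hB⟩ := c2
      have f1 := hsubf A B hAB
      have k1 := hcard A B hAB hd
      obtain ⟨p, hp0, hp, uA, uB⟩ := two_sum f1.1 f1.2 (by rw [hAB]; exact hN.uni) hf
      have l1 : (A ∪ {p}).ncard ≤ A.ncard + 1 := by
        have := Set.ncard_union_le A {p}
        rwa [Set.ncard_singleton] at this
      have l2 : (B ∪ {p}).ncard ≤ B.ncard + 1 := by
        have := Set.ncard_union_le B {p}
        rwa [Set.ncard_singleton] at this
      rw [← hAB]
      exact dec_sum1 hp
        (ih (A ∪ {p}).ncard (by omega) _ (f1.1.union (Set.finite_singleton p)) uA le_rfl)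
        (ih (B ∪ {p}).ncard (by omega) _ (f1.2.union (Set.finite_singleton p)) uB le_rfl)
    have hc : Conn3 X' := by
      intro A B hAB hd
      constructor
      · intro hf
        by_contra hcon
        push Not at hcon
        exact c1 ⟨A, B, hAB, hd, hf, hcon.1, hcon.2⟩
      · intro hf
        by_contra hcon
        push Not at hcon
        exact c2 ⟨A, B, hAB, hd, hf, hcon.1, hcon.2⟩
    rcases le_or_gt 4 X'.ncard with hlt | hlt
    swap
    · exact dec_small hN hc (by omega)
    rcases H X' hN hc hlt with hD | ⟨A, B, hAB, hd, hA6, hB6, hf⟩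
    · exact hD
    have f1 := hsubf A B hAB
    have k1 := hcard A B hAB hd
    have hf' : finrank ℚ (span ℚ A ⊓ span ℚ B : Submodule ℚ V) = 2 := by
      have e0 := (hc A B hAB hd).1
      have e1 := (hc A B hAB hd).2
      have n0 : finrank ℚ (span ℚ A ⊓ span ℚ B : Submodule ℚ V) ≠ 0 := by
        intro h0
        rcases e0 h0 with h | h
        · rw [h, Set.ncard_empty] at hA6; omega
        · rw [h, Set.ncard_empty] at hB6; omega
      have n1 : finrank ℚ (span ℚ A ⊓ span ℚ B : Submodule ℚ V) ≠ 1 := by
        intro h0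
        rcases e1 h0 with h | h <;> omega
      omega
    have uX : Uni (A ∪ B) := by rw [hAB]; exact hN.uni
    have cX : Conn3 (A ∪ B) := by rw [hAB]; exact hc
    have gA : Good (span ℚ A ⊓ span ℚ B) A := by
      rw [inf_comm]
      exact good_of_conn f1.1 f1.2 uX hd cX (by omega) (by omega) (by rw [inf_comm]; exact hf')
    have gB : Good (span ℚ A ⊓ span ℚ B) B :=
      good_of_conn f1.2 f1.1 (by rw [Set.union_comm]; exact uX) hd.symm
        (by rw [Set.union_comm]; exact cX) (by omega) (by omega) hf'
    obtain ⟨p, q, li, hpq, uA, uB⟩ := three_sum uX hf' gA gB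
    have hfin3 : ({p, q, p + q} : Set V).Finite := Set.toFinite _
    have h3c : ({p, q, p + q} : Set V).ncard ≤ 3 := by
      have e1 := Set.ncard_insert_le p ({q, p + q} : Set V)
      have e2 := Set.ncard_insert_le q ({p + q} : Set V)
      rw [Set.ncard_singleton] at e2
      omega
    have l1 : (A ∪ {p, q, p + q}).ncard ≤ A.ncard + 3 :=
      (Set.ncard_union_le _ _).trans (by omega)
    have l2 : (B ∪ {p, q, p + q}).ncard ≤ B.ncard + 3 :=
      (Set.ncard_union_le _ _).trans (by omega)
    rw [← hAB]
    exact dec_sum2 li hpq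
      (ih _ (by omega) _ (f1.1.union hfin3) uA le_rfl)
      (ih _ (by omega) _ (f1.2.union hfin3) uB le_rfl)

end RC.Gut
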