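import Pool.Agent.Helper59.RG.Defs

/-!
Module RG-1.  Projection of one side, 2-sums.

`uni_proj`: let `f = mkQ (span T1) : V → V ⧸ span T1`.  By `uni_con` (with the set `T1`)
`f '' (S ∪ T)` is unimodular.  For `u` in the second set, `f u = f t` with `t ∈ T`.  So
`f '' (S ∪ R)` is a subset of `f '' (S ∪ T)`, unimodular by `uni_mono`.  `span (S ∪ R) = span S`, and
`f` is injective on it, because `ker f = span T1` meets `span S` in `⊥`.  Use `uni_of_map`.

`two_sum`: let `W = span S ⊓ span T`, `finrank W = 1`.  Choose a basis `T1` of `span T` modulo `W`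
with elements of `T`, that is `T1 ⊆ T`, `span T1 ⊓ W = ⊥`, `span T ≤ W ⊔ span T1` (for instance: a
maximal subset `T1` of `T`, independent and with `span T1 ⊓ W = ⊥`; `exists_bs` of module
`Bases.lean` may be used).  Since `W ≤ span T` and `W ≠ ⊥`, not all elements of `T` are in
`span T1`; so there is `t ∈ T` with `t = u + s`, `u ∈ W`, `u ≠ 0`, `s ∈ span T1`.
`span T1 ⊓ span S ≤ span T1 ⊓ W = ⊥`, so `S ∪ {u}` is unimodular by `uni_proj`.  In the same way
there is `u' ∈ W`, `u' ≠ 0`, with `T ∪ {u'}` unimodular, more precisely `u' - s' ∈ S` with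
`s' ∈ span S1`.  Now `{u} ∪ S` is unimodular; apply `uni_proj` to it with the contracted set `S1`:
`{u} ∪ {w ∈ span {u} | ∃ t ∈ S, t - w ∈ span S1}` is unimodular and contains `u, u'`
(`W = span {u}`).  By `uni_par` `u' = ± u`.  So `T ∪ {u}` is unimodular (`uni_mono`), `p = u`.
-/

namespace RC.Gut

open Submodule Module

variable {V : Type} [AddCommGroup V] [Module ℚ V]

theorem uni_proj {S T T1 : Set V} (hX : Uni (S ∪ T)) (hT : T1 ⊆ T)
    (h0 : span ℚ T1 ⊓ span ℚ S = ⊥) :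
    Uni (S ∪ {u : V | u ∈ span ℚ S ∧ ∃ t ∈ T, t - u ∈ span ℚ T1}) := by
  have hcon : Uni ((span ℚ T1).mkQ '' (S ∪ T)) := by
    refine uni_con (span ℚ T1).mkQ hX (S := T1) (hT.trans Set.subset_union_right) ?_ ?_
    · intro s hs
      rw [← LinearMap.mem_ker, Submodule.ker_mkQ]
      exact subset_span hs
    · intro y _ hy
      rwa [← LinearMap.mem_ker, Submodule.ker_mkQ] at hy
  refine uni_of_map (span ℚ T1).mkQ ?_ (uni_mono hcon ?_)
  · intro y hy hfy
    rw [← LinearMap.mem_ker, Submodule.ker_mkQ] at hfy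
    have hle : span ℚ (S ∪ {u : V | u ∈ span ℚ S ∧ ∃ t ∈ T, t - u ∈ span ℚ T1}) ≤ span ℚ S := by
      rw [span_le]
      rintro x (hx | hx)
      · exact subset_span hx
      · exact hx.1
    have h1 : y ∈ span ℚ T1 ⊓ span ℚ S := ⟨hfy, hle hy⟩
    rwa [h0, Submodule.mem_bot] at h1
  · rintro x ⟨y, hy | hy, rfl⟩
    · exact Or.inr (Or.inl ⟨y, Or.inl hy, rfl⟩)
    · obtain ⟨_, t, ht, htu⟩ := hy
      refine Or.inr (Or.inl ⟨t, Or.inr ht, ?_⟩)
      rw [← sub_eq_zero, ← map_sub, ← LinearMap.mem_ker, Submodule.ker_mkQ]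
      exact htu

/-- One side: a vector of the intersection line realised by contracting elements of `T`. -/
theorem one_side {S T : Set V} (hT : T.Finite) (hne : span ℚ S ⊓ span ℚ T ≠ ⊥) :
    ∃ (u : V) (T1 : Set V), T1 ⊆ T ∧ u ≠ 0 ∧ u ∈ span ℚ S ∧ u ∈ span ℚ T ∧
      span ℚ T1 ⊓ span ℚ S = ⊥ ∧ ∃ t ∈ T, t - u ∈ span ℚ T1 := by
  have hfin : {A : Set V | A ⊆ T ∧ span ℚ A ⊓ (span ℚ S ⊓ span ℚ T) = ⊥}.Finite :=
    hT.finite_subsets.subset fun A hA => hA.1
  obtain ⟨T1, hT1⟩ := hfin.exists_maximal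
    ⟨∅, Set.empty_subset _, by rw [span_empty, bot_inf_eq]⟩
  have hsub : T1 ⊆ T := hT1.prop.1
  have hbot : span ℚ T1 ⊓ (span ℚ S ⊓ span ℚ T) = ⊥ := hT1.prop.2
  have hexT : ∃ t ∈ T, t ∉ span ℚ T1 := by
    by_contra hcon
    push Not at hcon
    apply hne
    have h1 : span ℚ T ≤ span ℚ T1 := span_le.2 hcon
    rw [eq_bot_iff, ← hbot]
    exact le_inf (inf_le_right.trans h1) le_rfl
  obtain ⟨t, htT, ht⟩ := hexT
  have hins : span ℚ (insert t T1) ⊓ (span ℚ S ⊓ span ℚ T) ≠ ⊥ := by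
    intro h1
    have h2 : insert t T1 ⊆ T1 :=
      hT1.le_of_ge ⟨Set.insert_subset htT hsub, h1⟩ (Set.subset_insert t T1)
    exact ht (subset_span (h2 (Set.mem_insert t T1)))
  obtain ⟨w, ⟨hw1, hwS, hwT⟩, hw0⟩ := Submodule.exists_mem_ne_zero_of_ne_bot hins
  obtain ⟨a, s, hs, rfl⟩ := mem_span_insert.1 hw1
  have ha : a ≠ 0 := by
    rintro rfl
    apply hw0
    have h1 : (0 : ℚ) • t + s ∈ span ℚ T1 ⊓ (span ℚ S ⊓ span ℚ T) := by
      refine ⟨?_, hwS, hwT⟩
      rw [zero_smul, zero_add]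
      exact hs
    rwa [hbot, Submodule.mem_bot] at h1
  refine ⟨a⁻¹ • (a • t + s), T1, hsub, smul_ne_zero (inv_ne_zero ha) hw0,
    Submodule.smul_mem _ _ hwS, Submodule.smul_mem _ _ hwT, ?_, t, htT, ?_⟩
  · rw [eq_bot_iff, ← hbot]
    exact le_inf inf_le_left (le_inf inf_le_right (inf_le_left.trans (span_mono hsub)))
  · have h1 : t - a⁻¹ • (a • t + s) = -(a⁻¹ • s) := by
      rw [smul_add, smul_smul, inv_mul_cancel₀ ha, one_smul]
      abel
    rw [h1]
    exact Submodule.neg_mem _ (Submodule.smul_mem _ _ hs)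

theorem two_sum {S T : Set V} (hS : S.Finite) (hT : T.Finite) (hX : Uni (S ∪ T))
    (h1 : finrank ℚ (span ℚ S ⊓ span ℚ T : Submodule ℚ V) = 1) :
    ∃ p : V, p ≠ 0 ∧ span ℚ S ⊓ span ℚ T = span ℚ {p} ∧ Uni (S ∪ {p}) ∧ Uni (T ∪ {p}) := by
  have hne : span ℚ S ⊓ span ℚ T ≠ ⊥ := by
    intro h
    rw [h, finrank_bot] at h1
    exact absurd h1 (by norm_num)
  obtain ⟨u, T1, hT1, hu0, huS, huT, hT1S, t, htT, htu⟩ := one_side (S := S) hT hne
  obtain ⟨u', S1, hS1, hu'0, hu'T, hu'S, hS1T, s, hsS, hsu⟩ :=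
    one_side (S := T) (T := S) hS (by rwa [inf_comm])
  have hW : span ℚ S ⊓ span ℚ T = span ℚ {u} := by
    apply le_antisymm
    · intro x hx
      have h2 := (finrank_eq_one_iff_of_nonzero' (⟨u, huS, huT⟩ :
        (span ℚ S ⊓ span ℚ T : Submodule ℚ V)) (fun h => hu0 (congrArg Subtype.val h))).1 h1
        ⟨x, hx⟩
      obtain ⟨c, hc⟩ := h2
      have h3 : c • u = x := congrArg Subtype.val hc
      rw [← h3]
      exact Submodule.smul_mem _ _ (mem_span_singleton_self u)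
    · rw [span_singleton_le_iff_mem]
      exact ⟨huS, huT⟩
  have hUS : Uni (S ∪ {u}) := by
    refine uni_mono (uni_proj hX hT1 hT1S) ?_
    rintro x (hx | hx)
    · exact Or.inr (Or.inl (Or.inl hx))
    · rw [Set.mem_singleton_iff] at hx
      rw [hx]
      exact Or.inr (Or.inl (Or.inr ⟨huS, t, htT, htu⟩))
  have hUT : Uni (T ∪ {u'}) := by
    refine uni_mono (uni_proj (S := T) (T := S) (by rwa [Set.union_comm]) hS1 hS1T) ?_
    rintro x (hx | hx)
    · exact Or.inr (Or.inl (Or.inl hx))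
    · rw [Set.mem_singleton_iff] at hx
      rw [hx]
      exact Or.inr (Or.inl (Or.inr ⟨hu'T, s, hsS, hsu⟩))
  have hu'u : u' ∈ span ℚ {u} := by
    rw [← hW]
    exact ⟨hu'S, hu'T⟩
  have hUU : Uni ({u} ∪ {w : V | w ∈ span ℚ {u} ∧ ∃ t ∈ S, t - w ∈ span ℚ S1}) := by
    refine uni_proj (S := {u}) (T := S) (by rwa [Set.union_comm]) hS1 ?_
    rw [eq_bot_iff, ← hS1T]
    refine inf_le_inf_left _ ?_
    rw [span_singleton_le_iff_mem]
    exact huT
  have hpar : u' = u ∨ u' = -u := by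
    refine uni_par hUU (Or.inl rfl) (Or.inr ⟨hu'u, s, hsS, hsu⟩) hu0 hu'0 ?_
    rw [LinearIndependent.pair_iff' hu0]
    push Not
    exact mem_span_singleton.1 hu'u
  refine ⟨u, hu0, hW, hUS, uni_mono hUT ?_⟩
  rintro x (hx | hx)
  · exact Or.inr (Or.inl (Or.inl hx))
  · rw [Set.mem_singleton_iff] at hx
    rw [hx]
    rcases hpar with h | h
    · exact Or.inr (Or.inl (Or.inr (by rw [h]; rfl)))
    · refine Or.inr (Or.inr (Or.inr ?_))
      rw [h]
      rfl

end RC.Gut
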