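import Pool.Agent.Helper59.RG.Bases
import Pool.Agent.Helper59.RG.Proj

/-!
Module RG-3.  The exchange lemma.  `U = span S ⊓ span T`.

`adj`: let `P` be the projection for `T1` (`bs_proj`), `γ` the coefficient at `z` (`bs_coeff`).
`P x = ux`, `P y = uy`, `γ x ≠ 0`, `γ y ≠ 0` (an element `w` of `span T` with `γ w = 0` is in
`U ⊔ span (T1.erase z)`), so `γ x, γ y ∈ {1, -1}`; `ρ = γ y / γ x = ± 1`.
Let `p = - ρ • ux`, `q = uy`; `p + q = uy - ρ • ux`; `p, q` are independent and span `U`
(`finrank U = 2`).  `p = ± ux`.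
* `Pr p q`: `T1`, `x`, `y`.
* `T1' = insert x (T1.erase z)` is a basis (`bs_exchange`): `y - ρ • x` has coefficient `0` at `z`, so
  `y - ρ • x - (uy - ρ • ux) ∈ span (T1.erase z)`, and `y - (uy - ρ • ux) ∈ span T1'`: `p + q` is
  realised.  `z - (γ x)⁻¹ • x + (γ x)⁻¹ • ux ∈ span (T1.erase z)`: `-(γ x)⁻¹ • ux = ± p` is realised
  by `z`.  So `Pr p (p + q)`.
* `T1'' = insert y (T1.erase z)`: `z` realises `-(γ y)⁻¹ • uy = ± q`, and `x` realises
  `ux - ρ⁻¹ • uy = -ρ⁻¹ • (uy - ρ • ux) = ± (p + q)`.  So `Pr q (p + q)`.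

`dir_step`: let `T1' = insert x (T1.erase z)`; `u ∈ Re T1` by `y ∈ T`, `P y = u`.  If the
coefficient of `y` at `z` is `0`, then `y - u ∈ span (T1.erase z) ≤ span T1'` and `u' = u`.
If `P x = 0`, then `x ∈ span T1`, `span T1' = span T1` (`≤`, and `z ∈ span T1'` since the coefficient
of `x` at `z` is not `0`), and `u' = u`.  Otherwise `P x` and `u` are dependent by `adj` (else
`Good`), so `P x ∈ span {u}`, and `u' = -(γ x)⁻¹ • P x` is realised by `z ∈ T`.

`dir_all`: induction on the number of elements of `T2 \ T1`.  If `T2 ⊆ T1` then `T2 = T1`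
(`span T1 ≤ U ⊔ span T2`; an element of `T1 \ T2` would be in `U ⊔ span T2`, so
`z - s ∈ U ⊓ span T1 = ⊥`, `z ∈ span T2` with `T2 ⊆ T1.erase z`, against independence).  Otherwise
let `x ∈ T2 \ T1`.  There is `z ∈ T1 \ T2` with `x ∉ U ⊔ span (T1.erase z)`: otherwise (coordinates
of `x` modulo `U` in `T1`) `x ∈ U ⊔ span (T1 ∩ T2)`, so `x - s ∈ U ⊓ span T2 = ⊥` for some
`s ∈ span (T1 ∩ T2)`, against independence of `T2`.  `T1' = insert x (T1.erase z)` is a basis
(`bs_exchange`), `T2 \ T1'` is smaller; `dir_step` and the induction hypothesis.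
-/

namespace RC.Gut

open Submodule Module

variable {V : Type} [AddCommGroup V] [Module ℚ V]

private theorem pm_sq {a : ℚ} (h : a = 1 ∨ a = -1) : a * a = 1 := by
  rcases h with rfl | rfl <;> norm_num

open Classical in
/-- removing the multiple of `z` -/
private theorem erase_coord {T1 : Finset V} {z : V} (hz : z ∈ T1) (γ : V →ₗ[ℚ] ℚ) (h1 : γ z = 1)
    (h0 : ∀ s ∈ T1, s ≠ z → γ s = 0) :
    (∀ s ∈ span ℚ ((T1.erase z : Finset V) : Set V), γ s = 0) ∧
      ∀ s ∈ span ℚ (T1 : Set V), s - γ s • z ∈ span ℚ ((T1.erase z : Finset V) : Set V) := by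
  have hE : ∀ s ∈ span ℚ ((T1.erase z : Finset V) : Set V), γ s = 0 := by
    intro s hs
    have h2 : span ℚ ((T1.erase z : Finset V) : Set V) ≤ LinearMap.ker γ := by
      rw [span_le]
      intro t ht
      have ht' := Finset.mem_erase.1 (Finset.mem_coe.1 ht)
      exact LinearMap.mem_ker.2 (h0 t ht'.2 ht'.1)
    exact LinearMap.mem_ker.1 (h2 hs)
  refine ⟨hE, fun s hs => ?_⟩
  rw [← Finset.insert_erase hz, Finset.coe_insert, mem_span_insert] at hs
  obtain ⟨a, s', hs', rfl⟩ := hs
  rw [map_add, map_smul, h1, hE s' hs', smul_eq_mul, mul_one, add_zero, add_sub_cancel_left]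
  exact hs'

open Classical in
private theorem erase_li {T1 : Finset V} (h : LinearIndepOn ℚ id (T1 : Set V)) {z : V}
    (hz : z ∈ T1) : z ∉ span ℚ ((T1.erase z : Finset V) : Set V) := by
  intro hs
  have h1 : z ∉ ((T1.erase z : Finset V) : Set V) := by simp
  have h2 := (linearIndepOn_id_insert (K := ℚ) h1).1 (by
    rw [← Finset.coe_insert, Finset.insert_erase hz]
    exact h)
  exact h2.2 hs

private theorem span_pair_eq {U : Submodule ℚ V} (h2 : finrank ℚ U = 2) {p q : V}
    (li : LinearIndependent ℚ ![p, q]) (hp : p ∈ U) (hq : q ∈ U) : span ℚ {p, q} = U := by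
  have hf : FiniteDimensional ℚ U := Module.finite_of_finrank_pos (by omega)
  refine Submodule.eq_of_le_of_finrank_eq ?_ ?_
  · rw [span_le]
    rintro w (rfl | hw)
    · exact hp
    · rw [Set.mem_singleton_iff.1 hw]
      exact hq
  · have h3 := finrank_span_eq_card li
    rw [Matrix.range_cons, Matrix.range_cons, Matrix.range_empty, Set.union_empty,
      Set.singleton_union, Fintype.card_fin] at h3
    rw [h3, h2]

open Classical in
theorem adj {S T : Set V} (hX : Uni (S ∪ T))
    (h2 : finrank ℚ (span ℚ S ⊓ span ℚ T : Submodule ℚ V) = 2) {T1 : Finset V}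
    (h : Bs (span ℚ S ⊓ span ℚ T) T T1) {z x y ux uy : V} (hz : z ∈ T1) (hx : x ∈ T) (hy : y ∈ T)
    (hux : ux ∈ span ℚ S ⊓ span ℚ T) (huy : uy ∈ span ℚ S ⊓ span ℚ T)
    (dx : x - ux ∈ span ℚ (T1 : Set V)) (dy : y - uy ∈ span ℚ (T1 : Set V))
    (nx : x ∉ (span ℚ S ⊓ span ℚ T) ⊔ span ℚ ((T1.erase z : Finset V) : Set V))
    (ny : y ∉ (span ℚ S ⊓ span ℚ T) ⊔ span ℚ ((T1.erase z : Finset V) : Set V))
    (li : LinearIndependent ℚ ![ux, uy]) : Good (span ℚ S ⊓ span ℚ T) T := by
  obtain ⟨γ, hγz, hγS, hγ0, hγT⟩ := bs_coeff hX h hz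
  obtain ⟨hE0, hEc⟩ := erase_coord hz γ hγz hγ0
  set U : Submodule ℚ V := span ℚ S ⊓ span ℚ T with hU
  set E : Submodule ℚ V := span ℚ ((T1.erase z : Finset V) : Set V) with hE
  have hγU : ∀ w ∈ U, γ w = 0 := fun w hw => hγS w (mem_inf.1 hw).1
  have hne : ∀ {w uw : V}, uw ∈ U → w - uw ∈ span ℚ (T1 : Set V) → w ∉ U ⊔ E →
      w - uw - γ w • z ∈ E ∧ γ w ≠ 0 := by
    intro w uw huw dw nw
    have h1 := hEc _ dw
    rw [map_sub, hγU uw huw, sub_zero] at h1
    refine ⟨h1, fun h3 => nw ?_⟩
    rw [h3, zero_smul, sub_zero] at h1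
    have h4 : w = uw + (w - uw) := by abel
    rw [h4]
    exact add_mem (mem_sup_left huw) (mem_sup_right h1)
  obtain ⟨ex, hax⟩ := hne hux dx nx
  obtain ⟨ey, hbx⟩ := hne huy dy ny
  have ha : γ x = 1 ∨ γ x = -1 := (hγT x hx).resolve_left hax
  have hb : γ y = 1 ∨ γ y = -1 := (hγT y hy).resolve_left hbx
  set a : ℚ := γ x with hadef
  set b : ℚ := γ y with hbdef
  have haa := pm_sq ha
  have hbb := pm_sq hb
  have hab : a * b = 1 ∨ a * b = -1 := by
    rcases ha with h1 | h1 <;> rcases hb with h3 | h3 <;> rw [h1, h3] <;> norm_num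
  have habab := pm_sq hab
  have hab0 : a * b ≠ 0 := by
    intro h0
    rw [h0] at habab
    norm_num at habab
  have hpU : -(a * b) • ux ∈ U := U.smul_mem _ hux
  have lip : LinearIndependent ℚ ![-(a * b) • ux, uy] := by
    rw [LinearIndependent.pair_iff] at li ⊢
    intro s t hst
    have h1 := li (s * -(a * b)) t (by rw [← hst, smul_smul])
    refine ⟨?_, h1.2⟩
    rcases mul_eq_zero.1 h1.1 with h3 | h3
    · exact h3
    · exact absurd (neg_eq_zero.1 h3) hab0
  have inE : ∀ {w e : V}, e ∈ E → e ∈ span ℚ ((insert w (T1.erase z) : Finset V) : Set V) := by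
    intro w e he
    refine span_mono ?_ he
    rw [Finset.coe_insert]
    exact Set.subset_insert _ _
  have inw : ∀ w : V, w ∈ span ℚ ((insert w (T1.erase z) : Finset V) : Set V) := fun w =>
    subset_span (by rw [Finset.coe_insert]; exact Set.mem_insert _ _)
  have zT : z ∈ T := h.sub hz
  refine ⟨-(a * b) • ux, uy, lip, span_pair_eq h2 lip hpU huy, ?_, ?_, ?_⟩
  · refine ⟨T1, h, ?_, Or.inl ⟨huy, y, hy, dy⟩⟩
    rcases hab with h1 | h1
    · right
      rw [h1, neg_smul, one_smul, neg_neg]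
      exact ⟨hux, x, hx, dx⟩
    · left
      rw [h1, neg_neg, one_smul]
      exact ⟨hux, x, hx, dx⟩
  · refine ⟨insert x (T1.erase z), bs_exchange h hz hx nx, ?_, Or.inl ⟨add_mem hpU huy, y, hy, ?_⟩⟩
    · have hw : -a • ux ∈ Re U T (insert x (T1.erase z)) := by
        refine ⟨U.smul_mem _ hux, z, zT, ?_⟩
        have h1 : z - -a • ux = a • x - a • (x - ux - a • z) := by
          have h3 : z = (a * a) • z := by rw [haa, one_smul]
          calc z - -a • ux = (a * a) • z - -a • ux := by rw [haa, one_smul]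
            _ = a • x - a • (x - ux - a • z) := by module
        rw [h1]
        exact sub_mem (Submodule.smul_mem _ _ (inw x)) (Submodule.smul_mem _ _ (inE ex))
      rcases hb with h1 | h1
      · left
        rw [h1, mul_one]
        exact hw
      · right
        rw [h1]
        have h3 : -(-(a * -1) • ux) = -a • ux := by module
        rw [h3]
        exact hw
    · have h1 : y - (-(a * b) • ux + uy) =
          (y - uy - b • z) - (a * b) • (x - ux - a • z) + (a * b) • x := by
        have h3 : b • z = ((a * b) * a) • z := by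
          congr 1
          linear_combination (-b) * haa
        calc y - (-(a * b) • ux + uy) = y - uy - b • z + (a * b) • ux + b • z := by module
          _ = y - uy - b • z + (a * b) • ux + ((a * b) * a) • z := by rw [← h3]
          _ = (y - uy - b • z) - (a * b) • (x - ux - a • z) + (a * b) • x := by module
      rw [h1]
      exact add_mem (sub_mem (inE ey) (Submodule.smul_mem _ _ (inE ex)))
        (Submodule.smul_mem _ _ (inw x))
  · refine ⟨insert y (T1.erase z), bs_exchange h hz hy ny, ?_, ?_⟩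
    · have hw : -b • uy ∈ Re U T (insert y (T1.erase z)) := by
        refine ⟨U.smul_mem _ huy, z, zT, ?_⟩
        have h1 : z - -b • uy = b • y - b • (y - uy - b • z) := by
          calc z - -b • uy = (b * b) • z - -b • uy := by rw [hbb, one_smul]
            _ = b • y - b • (y - uy - b • z) := by module
        rw [h1]
        exact sub_mem (Submodule.smul_mem _ _ (inw y)) (Submodule.smul_mem _ _ (inE ey))
      rcases hb with h1 | h1
      · right
        rw [h1, neg_smul, one_smul] at hw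
        exact hw
      · left
        rw [h1, neg_neg, one_smul] at hw
        exact hw
    · have hw : ux - (a * b) • uy ∈ Re U T (insert y (T1.erase z)) := by
        refine ⟨sub_mem hux (U.smul_mem _ huy), x, hx, ?_⟩
        have h1 : x - (ux - (a * b) • uy) =
            (x - ux - a • z) - (a * b) • (y - uy - b • z) + (a * b) • y := by
          have h3 : a • z = ((a * b) * b) • z := by
            congr 1
            linear_combination (-a) * hbb
          calc x - (ux - (a * b) • uy) = x - ux - a • z + (a * b) • uy + a • z := by module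
            _ = x - ux - a • z + (a * b) • uy + ((a * b) * b) • z := by rw [← h3]
            _ = (x - ux - a • z) - (a * b) • (y - uy - b • z) + (a * b) • y := by module
        rw [h1]
        exact add_mem (sub_mem (inE ex) (Submodule.smul_mem _ _ (inE ey)))
          (Submodule.smul_mem _ _ (inw y))
      rcases hab with h1 | h1
      · right
        rw [h1] at hw ⊢
        have h3 : -(-(1 : ℚ) • ux + uy) = ux - (1 : ℚ) • uy := by module
        rw [h3]
        exact hw
      · left
        rw [h1] at hw ⊢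
        have h3 : -(-1 : ℚ) • ux + uy = ux - (-1 : ℚ) • uy := by module
        rw [h3]
        exact hw

open Classical in
theorem dir_step {S T : Set V} (hX : Uni (S ∪ T))
    (h2 : finrank ℚ (span ℚ S ⊓ span ℚ T : Submodule ℚ V) = 2)
    (hG : ¬ Good (span ℚ S ⊓ span ℚ T) T) {T1 : Finset V}
    (h : Bs (span ℚ S ⊓ span ℚ T) T T1) {z x : V} (hz : z ∈ T1) (hx : x ∈ T)
    (hn : x ∉ (span ℚ S ⊓ span ℚ T) ⊔ span ℚ ((T1.erase z : Finset V) : Set V)) {u : V}
    (hu : u ∈ Re (span ℚ S ⊓ span ℚ T) T T1) (hu0 : u ≠ 0) :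
    ∃ u' ∈ Re (span ℚ S ⊓ span ℚ T) T (insert x (T1.erase z)), u' ≠ 0 ∧ u' ∈ span ℚ {u} := by
  obtain ⟨γ, hγz, hγS, hγ0, hγT⟩ := bs_coeff hX h hz
  obtain ⟨hE0, hEc⟩ := erase_coord hz γ hγz hγ0
  obtain ⟨P, _, _, hP⟩ := bs_proj h
  obtain ⟨hPxU, hPx⟩ := hP x (subset_span hx)
  obtain ⟨huU, y, hy, dy⟩ := hu
  have hγU : ∀ w ∈ span ℚ S ⊓ span ℚ T, γ w = 0 := fun w hw => hγS w (mem_inf.1 hw).1
  have inE : ∀ {e : V}, e ∈ span ℚ ((T1.erase z : Finset V) : Set V) →
      e ∈ span ℚ ((insert x (T1.erase z) : Finset V) : Set V) := by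
    intro e he
    refine span_mono ?_ he
    rw [Finset.coe_insert]
    exact Set.subset_insert _ _
  have inx : x ∈ span ℚ ((insert x (T1.erase z) : Finset V) : Set V) :=
    subset_span (by rw [Finset.coe_insert]; exact Set.mem_insert _ _)
  have ex := hEc _ hPx
  rw [map_sub, hγU _ hPxU, sub_zero] at ex
  have hax : γ x ≠ 0 := by
    intro h3
    apply hn
    rw [h3, zero_smul, sub_zero] at ex
    have h4 : x = P x + (x - P x) := by abel
    rw [h4]
    exact add_mem (mem_sup_left hPxU) (mem_sup_right ex)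
  have ha : γ x = 1 ∨ γ x = -1 := (hγT x hx).resolve_left hax
  have haa := pm_sq ha
  have ey := hEc _ dy
  rw [map_sub, hγU _ huU, sub_zero] at ey
  have self : u ∈ span ℚ ({u} : Set V) := mem_span_singleton_self u
  by_cases hby : γ y = 0
  · rw [hby, zero_smul, sub_zero] at ey
    exact ⟨u, ⟨huU, y, hy, inE ey⟩, hu0, self⟩
  · by_cases hux : P x = 0
    · rw [hux, sub_zero] at ex
      have hzs : z ∈ span ℚ ((insert x (T1.erase z) : Finset V) : Set V) := by
        have h1 : γ x • x - γ x • (x - γ x • z) = z := by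
          calc γ x • x - γ x • (x - γ x • z) = (γ x * γ x) • z := by module
            _ = z := by rw [haa, one_smul]
        have h3 := sub_mem (Submodule.smul_mem _ (γ x) inx) (Submodule.smul_mem _ (γ x) (inE ex))
        rw [h1] at h3
        exact h3
      refine ⟨u, ⟨huU, y, hy, ?_⟩, hu0, self⟩
      have h1 : y - u = (y - u - γ y • z) + γ y • z := by abel
      rw [h1]
      exact add_mem (inE ey) (Submodule.smul_mem _ _ hzs)
    · have ny : y ∉ (span ℚ S ⊓ span ℚ T) ⊔ span ℚ ((T1.erase z : Finset V) : Set V) := by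
        intro hy'
        obtain ⟨w, hw, e, he, hwe⟩ := mem_sup.1 hy'
        apply hby
        rw [← hwe, map_add, hγU w hw, hE0 e he, add_zero]
      by_cases hli : LinearIndependent ℚ ![P x, u]
      · exact absurd (adj hX h2 h hz hx hy hPxU huU hPx dy hn ny hli) hG
      · rw [LinearIndependent.pair_iff' hux] at hli
        push Not at hli
        obtain ⟨c, hc⟩ := hli
        have hc0 : c ≠ 0 := by
          rintro rfl
          rw [zero_smul] at hc
          exact hu0 hc.symm
        have hxu : P x = c⁻¹ • u := by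
          rw [← hc, smul_smul, inv_mul_cancel₀ hc0, one_smul]
        refine ⟨-γ x • P x, ⟨Submodule.smul_mem _ _ hPxU, z, h.sub hz, ?_⟩, ?_, ?_⟩
        · have h1 : z - -γ x • P x = γ x • x - γ x • (x - P x - γ x • z) := by
            calc z - -γ x • P x = (γ x * γ x) • z - -γ x • P x := by rw [haa, one_smul]
              _ = γ x • x - γ x • (x - P x - γ x • z) := by module
          rw [h1]
          exact sub_mem (Submodule.smul_mem _ _ inx) (Submodule.smul_mem _ _ (inE ex))
        · exact smul_ne_zero (neg_ne_zero.2 hax) hux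
        · rw [hxu]
          exact Submodule.smul_mem _ _ (Submodule.smul_mem _ _ self)

/-- an element of the span which is in the span of all `T1.erase z`, `z ∉ T2`, is in the span of the
common elements -/
private theorem span_common {T1 T2 : Finset V} (h : LinearIndepOn ℚ id (T1 : Set V)) {s : V}
    (hs : s ∈ span ℚ (T1 : Set V))
    (hz : ∀ z ∈ T1, z ∉ T2 → s ∈ span ℚ ((T1 : Set V) \ {z})) :
    s ∈ span ℚ ((T1 : Set V) ∩ (T2 : Set V)) := by
  classical
  obtain ⟨f, _, hf⟩ := mem_span_finset.1 hs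
  have hf0 : ∀ z ∈ T1, z ∉ T2 → f z = 0 := by
    intro z hz1 hz2
    have h1 := hz z hz1 hz2
    rw [← Finset.coe_singleton, ← Finset.coe_sdiff] at h1
    obtain ⟨g, hg, hgs⟩ := mem_span_finset.1 h1
    have hgz : g z = 0 := by
      by_contra h3
      have h4 := hg (Function.mem_support.2 h3)
      rw [Finset.mem_coe, Finset.mem_sdiff, Finset.mem_singleton] at h4
      exact h4.2 rfl
    have h5 : ∑ a ∈ T1, g a • a = s := by
      rw [← hgs]
      symm
      refine Finset.sum_subset Finset.sdiff_subset ?_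
      intro a ha ha'
      rw [Finset.mem_sdiff, not_and, not_not, Finset.mem_singleton] at ha'
      rw [ha' ha, hgz, zero_smul]
    have h6 := (linearIndepOn_finset_iff.1 h) (fun a => f a - g a) (by
      simp only [id, sub_smul]
      rw [Finset.sum_sub_distrib, hf, h5, sub_self]) z hz1
    rw [hgz, sub_zero] at h6
    exact h6
  rw [← hf]
  refine Submodule.sum_mem _ fun a ha => ?_
  by_cases h2 : a ∈ T2
  · exact Submodule.smul_mem _ _ (subset_span ⟨ha, h2⟩)
  · rw [hf0 a ha h2, zero_smul]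
    exact Submodule.zero_mem _

theorem dir_all {S T : Set V} (hX : Uni (S ∪ T))
    (h2 : finrank ℚ (span ℚ S ⊓ span ℚ T : Submodule ℚ V) = 2)
    (hG : ¬ Good (span ℚ S ⊓ span ℚ T) T) {T1 T2 : Finset V}
    (h : Bs (span ℚ S ⊓ span ℚ T) T T1) (h' : Bs (span ℚ S ⊓ span ℚ T) T T2) {u : V}
    (hu : u ∈ Re (span ℚ S ⊓ span ℚ T) T T1) (hu0 : u ≠ 0) :
    ∃ u' ∈ Re (span ℚ S ⊓ span ℚ T) T T2, u' ≠ 0 ∧ u' ∈ span ℚ {u} := by
  classical
  obtain ⟨n, hn⟩ : ∃ n, (T2 \ T1).card = n := ⟨_, rfl⟩
  induction n generalizing T1 u with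
  | zero =>
    have hsub : T2 ⊆ T1 := Finset.sdiff_eq_empty_iff_subset.1 (Finset.card_eq_zero.1 hn)
    have heq : T2 = T1 := by
      refine Finset.Subset.antisymm hsub ?_
      intro z hz
      by_contra hz2
      obtain ⟨w, hw, s, hs, hws⟩ := mem_sup.1 (h'.sup (subset_span (h.sub hz)))
      have h1 : z - s ∈ span ℚ (T1 : Set V) ⊓ (span ℚ S ⊓ span ℚ T) := by
        refine mem_inf.2 ⟨sub_mem (subset_span hz) (span_mono (Finset.coe_subset.2 hsub) hs), ?_⟩
        rw [← hws, add_sub_cancel_right]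
        exact hw
      rw [h.inf, mem_bot, sub_eq_zero] at h1
      refine erase_li h.li hz ?_
      rw [h1]
      refine span_mono ?_ hs
      intro t ht
      rw [Finset.coe_erase]
      exact ⟨hsub ht, fun h3 => hz2 (h1 ▸ (Set.mem_singleton_iff.1 h3) ▸ ht)⟩
    subst heq
    exact ⟨u, hu, hu0, mem_span_singleton_self u⟩
  | succ n ih =>
    obtain ⟨x, hx⟩ := Finset.card_pos.1 (by omega : 0 < (T2 \ T1).card)
    rw [Finset.mem_sdiff] at hx
    have hxT : x ∈ T := h'.sub hx.1
    have hex : ∃ z ∈ T1, z ∉ T2 ∧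
        x ∉ (span ℚ S ⊓ span ℚ T) ⊔ span ℚ ((T1.erase z : Finset V) : Set V) := by
      by_contra hno
      push Not at hno
      obtain ⟨w, hw, s, hs, hws⟩ := mem_sup.1 (h.sup (subset_span hxT))
      have hsc : s ∈ span ℚ ((T1 : Set V) ∩ (T2 : Set V)) := by
        refine span_common h.li hs ?_
        intro z hz1 hz2
        obtain ⟨w', hw', s', hs', hws'⟩ := mem_sup.1 (hno z hz1 hz2)
        have hs'T : s' ∈ span ℚ (T1 : Set V) := by
          refine span_mono ?_ hs'
          rw [Finset.coe_erase]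
          exact Set.sdiff_subset
        have h1 : s - s' ∈ span ℚ (T1 : Set V) ⊓ (span ℚ S ⊓ span ℚ T) := by
          refine mem_inf.2 ⟨sub_mem hs hs'T, ?_⟩
          have h3 : s - s' = w' - w := by
            have h4 : w + s = w' + s' := hws.trans hws'.symm
            rw [sub_eq_sub_iff_add_eq_add, add_comm s w, h4]
          rw [h3]
          exact sub_mem hw' hw
        rw [h.inf, mem_bot, sub_eq_zero] at h1
        rw [h1]
        rw [Finset.coe_erase] at hs'
        exact hs'
      have h1 : x - s ∈ span ℚ (T2 : Set V) ⊓ (span ℚ S ⊓ span ℚ T) := by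
        refine mem_inf.2 ⟨sub_mem (subset_span hx.1) (span_mono Set.inter_subset_right hsc), ?_⟩
        rw [← hws, add_sub_cancel_right]
        exact hw
      rw [h'.inf, mem_bot, sub_eq_zero] at h1
      refine erase_li h'.li hx.1 ?_
      rw [← h1] at hsc
      refine span_mono ?_ hsc
      intro t ht
      rw [Finset.coe_erase]
      refine ⟨ht.2, fun h3 => hx.2 ?_⟩
      rw [← Set.mem_singleton_iff.1 h3]
      exact ht.1
    obtain ⟨z, hz1, hz2, hzx⟩ := hex
    obtain ⟨u1, hu1, hu10, hu1s⟩ := dir_step hX h2 hG h hz1 hxT hzx hu hu0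
    have hcard : (T2 \ insert x (T1.erase z)).card = n := by
      have h3 : T2 \ insert x (T1.erase z) = (T2 \ T1).erase x := by
        ext t
        rw [Finset.mem_sdiff, Finset.mem_erase, Finset.mem_sdiff, Finset.mem_insert,
          Finset.mem_erase, not_or, not_and]
        constructor
        · rintro ⟨ht, ht1, ht2⟩
          exact ⟨ht1, ht, ht2 fun h4 => hz2 (h4 ▸ ht)⟩
        · rintro ⟨ht1, ht, ht2⟩
          exact ⟨ht, ht1, fun _ => ht2⟩
      rw [h3, Finset.card_erase_of_mem (Finset.mem_sdiff.2 hx), hn]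
      omega
    obtain ⟨u2, hu2, hu20, hu2s⟩ := ih (bs_exchange h hz1 hxT hzx) hu1 hu10 hcard
    refine ⟨u2, hu2, hu20, ?_⟩
    have h4 : span ℚ ({u1} : Set V) ≤ span ℚ {u} := by
      rw [span_singleton_le_iff_mem]
      exact hu1s
    exact h4 hu2s

end RC.Gut
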