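import Pool.Agent.Helper59.RG.Defs

/-!
Module RG-2.  Bases modulo `U`.

`exists_bs`: take a maximal finite set `T1` with `C ⊆ T1 ⊆ T`, independent, with
`span T1 ⊓ U = ⊥` (`T` is finite).  If some `t ∈ T` is not in `U ⊔ span T1`, then
`insert t T1` has the same properties; so `T ⊆ U ⊔ span T1`.

`bs_proj`: `U` and `span T1` are disjoint, so there is a linear map `P` on `V` with `P = id` on
`U` and `P = 0` on `span T1`: for instance, `U ⊔ span T1` has a complement in `V`
(`Submodule.exists_isCompl`), hence `U` has a complement `K` containing `span T1`; let `P` be the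
projection onto `U` along `K`.  An element `y` of `span T ≤ U ⊔ span T1` is `u + s`, `P y = u`.

`bs_coeff`: choose `S0 ⊆ S` independent with `span S0 = span S` (`exists_linearIndependent`).
`span T1 ⊓ span S = ⊥` because `span T1 ≤ span T` and `h.inf`; so `S0 ∪ T1` is independent.
Let `γ` be the coordinate at `z` of a linear functional extending the dual basis element: `γ z = 1`,
`γ = 0` on `span S` and on `T1.erase z` (exists because `z ∉ span S ⊔ span (T1.erase z)`:
`Submodule.exists_le_ker_of_lt_top` or `Submodule.exists_dual_map_eq_bot_of_notMem`, normalised).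
For `y ∈ T`: `y ∈ span T ≤ span S ⊔ span T1 = span (S0 ∪ T1)`, so `y` is a finite combination of
elements of `S0` and of `T1`; its coefficient at `z` is `γ y`, and it is `0, 1, -1` by `uni_coord`
for `X = S ∪ T`.

`bs_exchange`: `x = u + s + c • z` with `u ∈ U`, `s ∈ span (T1.erase z)`, `c ≠ 0`.  The set
`T1' = insert x (T1.erase z)` is in `T`; it is independent and meets `U` in `⊥`: an element of
`span T1'` in `U` is `d • x + s'` with `s' ∈ span (T1.erase z)`, `d • (u + s + c • z) + s' ∈ U`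
gives `d • s + d c • z + s' ∈ U ⊓ span T1 = ⊥`, so `d c = 0` by independence of `T1`, `d = 0`, and
then `s' = 0`.  Independence: `x ∉ span (T1.erase z)`.  `z ∈ U ⊔ span T1'`, so
`span T ≤ U ⊔ span T1 ≤ U ⊔ span T1'`.

`bs_span`: `u ∈ U` is in `span T`, so it is a combination of elements `t` of `T`, and for the
projection `P` of `bs_proj`, `u = P u` is the combination of the `P t ∈ Re U T T1`.
-/

namespace RC.Gut

open Submodule Module

variable {V : Type} [AddCommGroup V] [Module ℚ V]

private theorem ins_li {U E : Submodule ℚ V} {T1 : Finset V} {t : V}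
    (li : LinearIndepOn ℚ id (T1 : Set V)) (hE : span ℚ (T1 : Set V) = E) (h0 : E ⊓ U = ⊥)
    (ht : t ∉ U ⊔ E) [DecidableEq V] :
    LinearIndepOn ℚ id ((insert t T1 : Finset V) : Set V) ∧
      span ℚ ((insert t T1 : Finset V) : Set V) ⊓ U = ⊥ := by
  subst hE
  refine ⟨?_, ?_⟩
  · rw [Finset.coe_insert]
    refine li.id_insert ?_
    intro hmem
    exact ht (Submodule.mem_sup_right hmem)
  · rw [eq_bot_iff]
    rintro y ⟨hy, hyU⟩
    have hy' : y ∈ span ℚ (insert t (T1 : Set V)) := by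
      rw [← Finset.coe_insert]
      exact hy
    obtain ⟨c, s, hs, rfl⟩ := mem_span_insert.1 hy'
    by_cases hc : c = 0
    · rw [hc, zero_smul, zero_add] at hyU ⊢
      rw [← h0]
      exact ⟨hs, hyU⟩
    · exfalso
      apply ht
      have h1 : t = c⁻¹ • (c • t + s) + -(c⁻¹ • s) := by
        rw [smul_add, smul_smul, inv_mul_cancel₀ hc, one_smul]
        abel
      rw [h1]
      exact Submodule.add_mem_sup (U.smul_mem _ hyU) (neg_mem (smul_mem _ _ hs))

private theorem split_z {T1 : Finset V} [DecidableEq V] {z y : V} (hz : z ∈ T1)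
    (hy : y ∈ span ℚ (T1 : Set V)) :
    ∃ (c : ℚ) (w : V), w ∈ span ℚ ((T1.erase z : Finset V) : Set V) ∧ y = c • z + w := by
  have h1 : (T1 : Set V) = insert z ((T1.erase z : Finset V) : Set V) := by
    rw [← Finset.coe_insert, Finset.insert_erase hz]
  rw [h1] at hy
  obtain ⟨c, w, hw, h⟩ := mem_span_insert.1 hy
  exact ⟨c, w, hw, h⟩

theorem exists_bs {U : Submodule ℚ V} {T : Set V} (hT : T.Finite) (C : Finset V)
    (hC : (C : Set V) ⊆ T) (li : LinearIndepOn ℚ id (C : Set V))
    (h0 : span ℚ (C : Set V) ⊓ U = ⊥) : ∃ T1 : Finset V, Bs U T T1 ∧ C ⊆ T1 := by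
  classical
  set Q : Finset (Finset V) := hT.toFinset.powerset.filter (fun T1 => C ⊆ T1 ∧
    LinearIndepOn ℚ id (T1 : Set V) ∧ span ℚ (T1 : Set V) ⊓ U = ⊥) with hQ
  have hmem : ∀ T1 : Finset V, T1 ∈ Q ↔ (T1 : Set V) ⊆ T ∧ C ⊆ T1 ∧
      LinearIndepOn ℚ id (T1 : Set V) ∧ span ℚ (T1 : Set V) ⊓ U = ⊥ := by
    intro T1
    rw [hQ, Finset.mem_filter, Finset.mem_powerset]
    constructor
    · rintro ⟨h1, h2⟩
      refine ⟨fun x hx => ?_, h2⟩
      exact (Set.Finite.mem_toFinset hT).1 (h1 hx)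
    · rintro ⟨h1, h2⟩
      exact ⟨fun x hx => (Set.Finite.mem_toFinset hT).2 (h1 hx), h2⟩
  obtain ⟨T1, hT1, hmax⟩ := Finset.exists_max_image Q Finset.card
    ⟨C, (hmem C).2 ⟨hC, Finset.Subset.refl C, li, h0⟩⟩
  obtain ⟨hsub, hCT, hli, hinf⟩ := (hmem T1).1 hT1
  refine ⟨T1, ⟨hsub, hli, hinf, ?_⟩, hCT⟩
  rw [span_le]
  intro t ht
  by_contra hcon
  obtain ⟨h1, h2⟩ := ins_li hli rfl hinf hcon
  have h3 : insert t T1 ∈ Q := by
    rw [hmem]
    refine ⟨?_, hCT.trans (Finset.subset_insert _ _), h1, h2⟩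
    rw [Finset.coe_insert]
    exact Set.insert_subset ht hsub
  have h4 := hmax _ h3
  have h5 : t ∉ T1 := fun h => hcon (Submodule.mem_sup_right (subset_span h))
  rw [Finset.card_insert_of_notMem h5] at h4
  omega

theorem bs_proj {U : Submodule ℚ V} {T : Set V} {T1 : Finset V} (h : Bs U T T1) :
    ∃ P : V →ₗ[ℚ] V, (∀ u ∈ U, P u = u) ∧ (∀ y ∈ span ℚ (T1 : Set V), P y = 0) ∧
      ∀ y ∈ span ℚ T, P y ∈ U ∧ y - P y ∈ span ℚ (T1 : Set V) := by
  have hdis : Disjoint (span ℚ (T1 : Set V)) U := disjoint_iff.2 h.inf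
  obtain ⟨K, hK, hKU⟩ := hdis.exists_isCompl
  have hc : IsCompl U K := hKU.symm
  let P : V →ₗ[ℚ] V := U.subtype ∘ₗ Submodule.projectionOnto U K hc
  have h1 : ∀ u ∈ U, P u = u := by
    intro u hu
    show ((Submodule.projectionOnto U K hc u : U) : V) = u
    have := Submodule.linearProjOfIsCompl_apply_left hc ⟨u, hu⟩
    exact congrArg Subtype.val this
  have h2 : ∀ y ∈ span ℚ (T1 : Set V), P y = 0 := by
    intro y hy
    show ((Submodule.projectionOnto U K hc y : U) : V) = 0
    have := (Submodule.linearProjOfIsCompl_apply_eq_zero_iff hc).2 (hK hy)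
    exact congrArg Subtype.val this
  refine ⟨P, h1, h2, fun y hy => ?_⟩
  obtain ⟨u, hu, s, hs, rfl⟩ := Submodule.mem_sup.1 (h.sup hy)
  rw [map_add, h1 u hu, h2 s hs, add_zero, add_sub_cancel_left]
  exact ⟨hu, hs⟩

open Classical in
theorem bs_coeff {S T : Set V} (hX : Uni (S ∪ T)) {T1 : Finset V}
    (h : Bs (span ℚ S ⊓ span ℚ T) T T1) {z : V} (hz : z ∈ T1) :
    ∃ γ : V →ₗ[ℚ] ℚ, γ z = 1 ∧ (∀ y ∈ span ℚ S, γ y = 0) ∧ (∀ s ∈ T1, s ≠ z → γ s = 0) ∧
      ∀ y ∈ T, γ y = 0 ∨ γ y = 1 ∨ γ y = -1 := by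
  set W : Submodule ℚ V := span ℚ (S ∪ ((T1.erase z : Finset V) : Set V)) with hW
  have hE : span ℚ ((T1.erase z : Finset V) : Set V) ≤ span ℚ (T1 : Set V) :=
    span_mono (Finset.coe_subset.2 (Finset.erase_subset z T1))
  have hT1T : span ℚ (T1 : Set V) ≤ span ℚ T := span_mono h.sub
  have hzW : z ∉ W := by
    intro hmem
    rw [hW, span_union] at hmem
    obtain ⟨s, hs, w, hw, hsw⟩ := Submodule.mem_sup.1 hmem
    have h1 : s ∈ span ℚ (T1 : Set V) := by
      have : s = z - w := by rw [← hsw]; abel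
      rw [this]
      exact sub_mem (subset_span hz) (hE hw)
    have h2 : s ∈ (⊥ : Submodule ℚ V) := by
      rw [← h.inf]
      exact ⟨h1, hs, hT1T h1⟩
    rw [Submodule.mem_bot] at h2
    rw [h2, zero_add] at hsw
    have h4 : (T1 : Set V) = insert z ((T1.erase z : Finset V) : Set V) := by
      rw [← Finset.coe_insert, Finset.insert_erase hz]
    have h5 := h.li
    rw [h4] at h5
    have h3 := h5.notMem_span_of_insert (by simp)
    apply h3
    rw [Set.image_id, id]
    have h6 : ∀ z' : V, w = z' → z' ∈ span ℚ ((T1.erase z : Finset V) : Set V) := by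
      intro z' hz'
      rw [← hz']
      exact hw
    exact h6 z hsw
  obtain ⟨f, hf1, hf2⟩ := Submodule.exists_dual_map_eq_bot_of_notMem hzW inferInstance
  have hfW : ∀ y ∈ W, f y = 0 := by
    intro y hy
    have h1 : f y ∈ W.map f := Submodule.mem_map_of_mem hy
    rw [hf2, Submodule.mem_bot] at h1
    exact h1
  have hSW : span ℚ S ≤ W := span_mono Set.subset_union_left
  have hEW : span ℚ ((T1.erase z : Finset V) : Set V) ≤ W := span_mono Set.subset_union_right
  refine ⟨(f z)⁻¹ • f, ?_, ?_, ?_, ?_⟩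
  · rw [LinearMap.smul_apply, smul_eq_mul, inv_mul_cancel₀ hf1]
  · intro y hy
    rw [LinearMap.smul_apply, hfW y (hSW hy), smul_zero]
  · intro s hs hsz
    rw [LinearMap.smul_apply, hfW s (hEW (subset_span (Finset.mem_coe.2
      (Finset.mem_erase.2 ⟨hsz, hs⟩)))), smul_zero]
  · intro y hy
    obtain ⟨u, hu, s, hs, hus⟩ := Submodule.mem_sup.1 (h.sup (subset_span hy))
    obtain ⟨c, w, hw, hcw⟩ := split_z hz hs
    have h1 : u + w ∈ W := add_mem (hSW hu.1) (hEW hw)
    have h2 : y = c • z + (u + w) := by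
      rw [← hus, hcw]
      abel
    have h3 : ((f z)⁻¹ • f) y = c := by
      rw [h2, LinearMap.smul_apply, map_add, map_smul, hfW _ h1, add_zero, smul_eq_mul,
        smul_eq_mul]
      field_simp
    rw [h3]
    have hA : S ∪ ((T1.erase z : Finset V) : Set V) ⊆ S ∪ T := by
      refine Set.union_subset_union_right S ?_
      exact (Finset.coe_subset.2 (Finset.erase_subset z T1)).trans h.sub
    refine uni_cut_coord hX hA (Or.inr (h.sub hz)) hzW h1 c ?_
    rw [← h2]
    exact Or.inr hy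

open Classical in
theorem bs_exchange {U : Submodule ℚ V} {T : Set V} {T1 : Finset V} (h : Bs U T T1) {z x : V}
    (hz : z ∈ T1) (hx : x ∈ T) (hn : x ∉ U ⊔ span ℚ ((T1.erase z : Finset V) : Set V)) :
    Bs U T (insert x (T1.erase z)) := by
  have hE : span ℚ ((T1.erase z : Finset V) : Set V) ≤ span ℚ (T1 : Set V) :=
    span_mono (Finset.coe_subset.2 (Finset.erase_subset z T1))
  have hli : LinearIndepOn ℚ id ((T1.erase z : Finset V) : Set V) :=
    h.li.mono (Finset.coe_subset.2 (Finset.erase_subset z T1))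
  have hinf : span ℚ ((T1.erase z : Finset V) : Set V) ⊓ U = ⊥ := by
    rw [eq_bot_iff, ← h.inf]
    exact inf_le_inf_right U hE
  obtain ⟨h1, h2⟩ := ins_li hli rfl hinf hn
  refine ⟨?_, h1, h2, ?_⟩
  · rw [Finset.coe_insert]
    refine Set.insert_subset hx ?_
    exact (Finset.coe_subset.2 (Finset.erase_subset z T1)).trans h.sub
  · have hxs : x ∈ span ℚ ((insert x (T1.erase z) : Finset V) : Set V) :=
      subset_span (Finset.mem_coe.2 (Finset.mem_insert_self _ _))
    have hEs : span ℚ ((T1.erase z : Finset V) : Set V) ≤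
        span ℚ ((insert x (T1.erase z) : Finset V) : Set V) :=
      span_mono (Finset.coe_subset.2 (Finset.subset_insert _ _))
    have hzs : z ∈ U ⊔ span ℚ ((insert x (T1.erase z) : Finset V) : Set V) := by
      obtain ⟨u, hu, s, hs, hus⟩ := Submodule.mem_sup.1 (h.sup (subset_span hx))
      obtain ⟨c, w, hw, hcw⟩ := split_z hz hs
      have hc : c ≠ 0 := by
        rintro rfl
        apply hn
        rw [← hus, hcw, zero_smul, zero_add]
        exact Submodule.add_mem_sup hu hw
      have h3 : z = -(c⁻¹ • u) + c⁻¹ • (x - w) := by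
        have h4 : x - w = u + c • z := by
          rw [← hus, hcw]
          abel
        rw [h4, smul_add, smul_smul, inv_mul_cancel₀ hc, one_smul]
        abel
      have h5 : -(c⁻¹ • u) + c⁻¹ • (x - w) ∈
          U ⊔ span ℚ ((insert x (T1.erase z) : Finset V) : Set V) :=
        Submodule.add_mem_sup (neg_mem (U.smul_mem _ hu)) (smul_mem _ _ (sub_mem hxs (hEs hw)))
      have h6 : ∀ z' : V, z' = -(c⁻¹ • u) + c⁻¹ • (x - w) →
          z' ∈ U ⊔ span ℚ ((insert x (T1.erase z) : Finset V) : Set V) := by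
        intro z' hz'
        rw [hz']
        exact h5
      exact h6 z h3
    refine h.sup.trans (sup_le le_sup_left ?_)
    intro y hy
    obtain ⟨c, w, hw, rfl⟩ := split_z hz hy
    exact add_mem (smul_mem _ _ hzs) (Submodule.mem_sup_right (hEs hw))

theorem bs_span {U : Submodule ℚ V} {T : Set V} {T1 : Finset V} (h : Bs U T T1)
    (hU : U ≤ span ℚ T) : U ≤ span ℚ (Re U T T1) := by
  obtain ⟨P, hP1, -, hP3⟩ := bs_proj h
  have h1 : ∀ y ∈ span ℚ T, P y ∈ span ℚ (Re U T T1) := by
    have h2 : span ℚ T ≤ (span ℚ (Re U T T1)).comap P := by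
      rw [span_le]
      intro t ht
      obtain ⟨h3, h4⟩ := hP3 t (subset_span ht)
      exact subset_span ⟨h3, t, ht, h4⟩
    exact h2
  intro u hu
  rw [← hP1 u hu]
  exact h1 u (hU hu)

end RC.Gut
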