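import Pool.Agent.Helper59.RC.UniQuot
import Pool.Agent.Helper59.RC.UniPlane

/-!
Separations of unimodular sets.  Definitions.

`T` is a finite set of vectors (one side of a separation), `U` a subspace of `span T` (the guts).
`Bs U T T1`: `T1 ⊆ T` is a basis of `span T` modulo `U`.  `Re U T T1` is the set of the vectors
of `U` which are congruent to elements of `T` modulo `span T1` (the trace of `T` on `U` after
contracting `T1`).
-/

namespace RC.Gut

open Submodule Module

variable {V : Type} [AddCommGroup V] [Module ℚ V]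

/-- A basis of `span T` modulo `U`. -/
structure Bs (U : Submodule ℚ V) (T : Set V) (T1 : Finset V) : Prop where
  sub : (T1 : Set V) ⊆ T
  li : LinearIndepOn ℚ id (T1 : Set V)
  inf : span ℚ (T1 : Set V) ⊓ U = ⊥
  sup : span ℚ T ≤ U ⊔ span ℚ (T1 : Set V)

/-- The vectors of `U` realised by `T1`. -/
def Re (U : Submodule ℚ V) (T : Set V) (T1 : Finset V) : Set V :=
  {u | u ∈ U ∧ ∃ t ∈ T, t - u ∈ span ℚ (T1 : Set V)}

/-- The pair `d, d'` is realised up to signs by one basis. -/
def Pr (U : Submodule ℚ V) (T : Set V) (d d' : V) : Prop :=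
  ∃ T1 : Finset V, Bs U T T1 ∧ (d ∈ Re U T T1 ∨ -d ∈ Re U T T1) ∧
    (d' ∈ Re U T T1 ∨ -d' ∈ Re U T T1)

/-- All three pairs of a triangle of `U` are realised. -/
def Good (U : Submodule ℚ V) (T : Set V) : Prop :=
  ∃ p q : V, LinearIndependent ℚ ![p, q] ∧ span ℚ {p, q} = U ∧ Pr U T p q ∧ Pr U T p (p + q) ∧
    Pr U T q (p + q)

end RC.Gut
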