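import Mathlib

/-!
Module RG-4.  Common circuits or separation.

`V` a rational vector space, `a, a' : V`, `K, T` finite sets of vectors.  Write `r X` for
`finrank (span X)`.  We prove by induction on `T.card` (for all `K`):

(C) there is a finite set `C` with `K ⊆ C ⊆ K ∪ T`, `a, a' ∉ span C`, `a' ∈ span (C ∪ {a})`, or
(D) `T = T' ∪ T''` (disjoint) with
    `r (T' ∪ K ∪ {a}) + r (T'' ∪ K ∪ {a'}) = r (T ∪ K ∪ {a, a'}) + r K`.

`T = ∅`: if `a ∈ span K` or `a' ∈ span K` or `a' ∉ span (K ∪ {a})`, then (D) holds with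
`T' = T'' = ∅`: `r (K ∪ {a}) + r (K ∪ {a'}) = r (K ∪ {a, a'}) + r K` (compute: adding a vector to a
set increases the rank by `1` iff it is not in the span).  Otherwise (C) holds with `C = K`.

Step: `T = insert t T0`, `t ∉ T0`.  Apply the induction hypothesis to `(T0, K)` and to
`(T0, insert t K)`.  If one of them gives (C), we are done (`K ⊆ insert t K ⊆ C`).
Otherwise there are partitions `T0 = P ∪ Q` and `T0 = P' ∪ Q'` with
`r (P K a) + r (Q K a') = r (T0 K a a') + r K` and
`r (P' t K a) + r (Q' t K a') = r (T0 t K a a') + r (t K)`.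
Submodularity `r X + r Y ≥ r (X ∪ Y) + r Z` for `Z ⊆ X ∩ Y`
(`Submodule.finrank_sup_add_finrank_inf_eq`) gives
`r (P K a) + r (P' t K a) ≥ r ((P ∪ P') t K a) + r ((P ∩ P') K a)`,
`r (Q K a') + r (Q' t K a') ≥ r ((Q ∪ Q') t K a') + r ((Q ∩ Q') K a')`.
Let `R = r (T K a a')` (`T = T0 ∪ {t}`).  The sum of the left sides is
`r (T0 K a a') + r K + R + r (t K) ≤ 2 R + 2 r K + 1`.
The two pairs `(insert t (P ∪ P'), Q ∩ Q')` and `(P ∩ P', insert t (Q ∪ Q'))` are partitions of `T`;
for each of them `r (X K a) + r (Y K a') ≥ R + r K` (submodularity).  If both inequalities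
were strict, the sum of the right sides would be at least `2 R + 2 r K + 2`.  So one of them is
an equality, this is (D).

`split_or`: the case `K = ∅`; (D) says `r (T' ∪ {a}) + r (T'' ∪ {a'}) = r (T ∪ {a, a'})`, so
`span (T' ∪ {a}) ⊓ span (T'' ∪ {a'}) = ⊥`.
-/

namespace RC.Gut

open Submodule Module

/-- rank of a finite set -/
noncomputable def rr {V : Type} [AddCommGroup V] [Module ℚ V] (X : Finset V) : ℕ :=
  finrank ℚ (span ℚ (X : Set V))

instance rr_fd {V : Type} [AddCommGroup V] [Module ℚ V] (X : Finset V) :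
    FiniteDimensional ℚ (span ℚ (X : Set V)) :=
  FiniteDimensional.span_finset ℚ X

theorem rr_mono {V : Type} [AddCommGroup V] [Module ℚ V] {X Y : Finset V} (h : X ⊆ Y) :
    rr X ≤ rr Y :=
  Submodule.finrank_mono (span_mono (by exact_mod_cast h))

theorem rr_span {V : Type} [AddCommGroup V] [Module ℚ V] {X Y : Finset V}
    (h : ∀ x ∈ X, x ∈ span ℚ (Y : Set V)) : rr X ≤ rr Y :=
  Submodule.finrank_mono (span_le.mpr (fun x hx => h x (by exact_mod_cast hx)))

open Classical in
theorem rr_sub {V : Type} [AddCommGroup V] [Module ℚ V] {X Y Z W : Finset V}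
    (hZX : Z ⊆ X) (hZY : Z ⊆ Y) (hW : W ⊆ X ∪ Y) : rr W + rr Z ≤ rr X + rr Y := by
  have h1 : rr W ≤ finrank ℚ ↥(span ℚ (X : Set V) ⊔ span ℚ (Y : Set V)) := by
    unfold rr
    apply Submodule.finrank_mono
    rw [← span_union]
    apply span_mono
    intro x hx
    have := hW (by exact_mod_cast hx)
    simpa using this
  have h2 : rr Z ≤ finrank ℚ ↥(span ℚ (X : Set V) ⊓ span ℚ (Y : Set V)) := by
    unfold rr
    have : FiniteDimensional ℚ ↥(span ℚ (X : Set V) ⊓ span ℚ (Y : Set V)) :=
      Submodule.finiteDimensional_of_le inf_le_left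
    apply Submodule.finrank_mono
    exact le_inf (span_mono (by exact_mod_cast hZX)) (span_mono (by exact_mod_cast hZY))
  have h3 := Submodule.finrank_sup_add_finrank_inf_eq (span ℚ (X : Set V)) (span ℚ (Y : Set V))
  have h4 : rr X = finrank ℚ (span ℚ (X : Set V)) := rfl
  have h5 : rr Y = finrank ℚ (span ℚ (Y : Set V)) := rfl
  omega

open Classical in
theorem rr_insert_le {V : Type} [AddCommGroup V] [Module ℚ V] (X : Finset V) (t : V) :
    rr (insert t X) ≤ rr X + 1 := by
  have h1 : rr ({t} : Finset V) ≤ 1 := by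
    unfold rr
    refine (finrank_span_finset_le_card ({t} : Finset V)).trans ?_
    simp
  have h2 := rr_sub (V := V) (X := X) (Y := {t}) (Z := ∅) (W := insert t X)
    (by simp) (by simp) (by intro x hx; simp at hx ⊢; tauto)
  omega

open Classical in
theorem rr_insert_not {V : Type} [AddCommGroup V] [Module ℚ V] {X : Finset V} {t : V}
    (h : t ∉ span ℚ (X : Set V)) : rr X + 1 ≤ rr (insert t X) := by
  have : span ℚ (X : Set V) < span ℚ ((insert t X : Finset V) : Set V) := by
    apply lt_of_le_of_ne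
    · exact span_mono (by exact_mod_cast Finset.subset_insert t X)
    · intro he
      apply h
      rw [he]
      exact subset_span (by simp)
  exact Submodule.finrank_lt_finrank_of_lt this

open Classical in
theorem split_aux {V : Type} [AddCommGroup V] [Module ℚ V] (a a' : V) (T : Finset V) :
    ∀ K : Finset V,
      (∃ C : Finset V, K ⊆ C ∧ C ⊆ K ∪ T ∧ a ∉ span ℚ (C : Set V) ∧ a' ∉ span ℚ (C : Set V) ∧
        a' ∈ span ℚ ((C : Set V) ∪ {a})) ∨
      ∃ T' T'' : Finset V, T' ∪ T'' = T ∧ Disjoint T' T'' ∧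
        rr (T' ∪ K ∪ {a}) + rr (T'' ∪ K ∪ {a'}) = rr (T ∪ K ∪ {a, a'}) + rr K := by
  induction T using Finset.induction_on with
  | empty =>
    intro K
    have e1 : (∅ ∪ K ∪ {a} : Finset V) = insert a K := by
      ext x; simp
    have e2 : (∅ ∪ K ∪ {a'} : Finset V) = insert a' K := by
      ext x; simp
    have e3 : (∅ ∪ K ∪ {a, a'} : Finset V) = insert a (insert a' K) := by
      ext x; simp
    have e4 : (insert a (insert a' K) : Finset V) = insert a' (insert a K) := by
      ext x; simp; tauto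
    have ha1 := rr_insert_le K a
    have ha2 := rr_insert_le K a'
    have ha3 := rr_insert_le (insert a' K) a
    have ha4 := rr_insert_le (insert a K) a'
    have hm1 : rr K ≤ rr (insert a K) := rr_mono (Finset.subset_insert _ _)
    have hm2 : rr K ≤ rr (insert a' K) := rr_mono (Finset.subset_insert _ _)
    have hm3 : rr (insert a' K) ≤ rr (insert a (insert a' K)) :=
      rr_mono (Finset.subset_insert _ _)
    have hm4 : rr (insert a K) ≤ rr (insert a' (insert a K)) :=
      rr_mono (Finset.subset_insert _ _)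
    by_cases h1 : a ∈ span ℚ (K : Set V)
    · right
      refine ⟨∅, ∅, by simp, by simp, ?_⟩
      rw [e1, e2, e3]
      have h5 : rr (insert a K) ≤ rr K := by
        apply rr_span
        intro x hx
        rcases Finset.mem_insert.mp hx with h | h
        · rw [h]; exact h1
        · exact subset_span (by exact_mod_cast h)
      have h6 : rr (insert a (insert a' K)) ≤ rr (insert a' K) := by
        apply rr_span
        intro x hx
        rcases Finset.mem_insert.mp hx with h | h
        · rw [h]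
          exact span_mono (by exact_mod_cast Finset.subset_insert a' K) h1
        · exact subset_span (by exact_mod_cast h)
      omega
    by_cases h2 : a' ∈ span ℚ (K : Set V)
    · right
      refine ⟨∅, ∅, by simp, by simp, ?_⟩
      rw [e1, e2, e3, e4]
      have h5 : rr (insert a' K) ≤ rr K := by
        apply rr_span
        intro x hx
        rcases Finset.mem_insert.mp hx with h | h
        · rw [h]; exact h2
        · exact subset_span (by exact_mod_cast h)
      have h6 : rr (insert a' (insert a K)) ≤ rr (insert a K) := by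
        apply rr_span
        intro x hx
        rcases Finset.mem_insert.mp hx with h | h
        · rw [h]
          exact span_mono (by exact_mod_cast Finset.subset_insert a K) h2
        · exact subset_span (by exact_mod_cast h)
      omega
    by_cases h3 : a' ∈ span ℚ ((K : Set V) ∪ {a})
    · left
      exact ⟨K, subset_rfl, by simp, h1, h2, h3⟩
    · right
      refine ⟨∅, ∅, by simp, by simp, ?_⟩
      rw [e1, e2, e3, e4]
      have h5 : rr (insert a K) + 1 ≤ rr (insert a' (insert a K)) := by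
        apply rr_insert_not
        intro h
        apply h3
        refine span_mono ?_ h
        intro x hx
        simp at hx ⊢
        tauto
      have h6 := rr_insert_not h2
      omega
  | insert t T0 ht ih =>
    intro K
    rcases ih K with ⟨C, hC1, hC2, hC3⟩ | ⟨P, Q, hPQ, hdis, hr⟩
    · left
      refine ⟨C, hC1, hC2.trans ?_, hC3⟩
      intro x hx
      simp at hx ⊢
      tauto
    rcases ih (insert t K) with ⟨C, hC1, hC2, hC3⟩ | ⟨P', Q', hPQ', hdis', hr'⟩
    · left
      refine ⟨C, (Finset.subset_insert t K).trans hC1, hC2.trans ?_, hC3⟩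
      intro x hx
      simp at hx ⊢
      tauto
    right
    have hP : ∀ x, x ∈ T0 ↔ x ∈ P ∨ x ∈ Q := by
      intro x; rw [← hPQ]; simp
    have hP' : ∀ x, x ∈ T0 ↔ x ∈ P' ∨ x ∈ Q' := by
      intro x; rw [← hPQ']; simp
    have hd : ∀ x, x ∈ P → x ∈ Q → False := fun x h1 h2 =>
      (Finset.disjoint_left.mp hdis) h1 h2
    have hd' : ∀ x, x ∈ P' → x ∈ Q' → False := fun x h1 h2 =>
      (Finset.disjoint_left.mp hdis') h1 h2
    have k1 : rr (insert t (P ∪ P') ∪ K ∪ {a}) + rr ((P ∩ P') ∪ K ∪ {a}) ≤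
        rr (P ∪ K ∪ {a}) + rr (P' ∪ insert t K ∪ {a}) := by
      apply rr_sub
      · intro x hx
        simp at hx ⊢
        tauto
      · intro x hx
        simp at hx ⊢
        tauto
      · intro x hx
        simp at hx ⊢
        tauto
    have k2 : rr (insert t (Q ∪ Q') ∪ K ∪ {a'}) + rr ((Q ∩ Q') ∪ K ∪ {a'}) ≤
        rr (Q ∪ K ∪ {a'}) + rr (Q' ∪ insert t K ∪ {a'}) := by
      apply rr_sub
      · intro x hx
        simp at hx ⊢
        tauto
      · intro x hx
        simp at hx ⊢
        tauto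
      · intro x hx
        simp at hx ⊢
        tauto
    have k3 : rr (T0 ∪ K ∪ {a, a'}) ≤ rr (insert t T0 ∪ K ∪ {a, a'}) := by
      apply rr_mono
      intro x hx
      simp at hx ⊢
      tauto
    have k4 : rr (T0 ∪ insert t K ∪ {a, a'}) ≤ rr (insert t T0 ∪ K ∪ {a, a'}) := by
      apply rr_mono
      intro x hx
      simp at hx ⊢
      tauto
    have k5 := rr_insert_le K t
    have k6 : rr (insert t T0 ∪ K ∪ {a, a'}) + rr K ≤
        rr (insert t (P ∪ P') ∪ K ∪ {a}) + rr ((Q ∩ Q') ∪ K ∪ {a'}) := by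
      apply rr_sub
      · intro x hx
        simp
        tauto
      · intro x hx
        simp
        tauto
      · intro x hx
        have h1 := hP x
        have h2 := hP' x
        simp at hx ⊢
        tauto
    have k7 : rr (insert t T0 ∪ K ∪ {a, a'}) + rr K ≤
        rr ((P ∩ P') ∪ K ∪ {a}) + rr (insert t (Q ∪ Q') ∪ K ∪ {a'}) := by
      apply rr_sub
      · intro x hx
        simp
        tauto
      · intro x hx
        simp
        tauto
      · intro x hx
        have h1 := hP x
        have h2 := hP' x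
        simp at hx ⊢
        tauto
    have k8 : rr (insert t (P ∪ P') ∪ K ∪ {a}) + rr ((Q ∩ Q') ∪ K ∪ {a'}) =
        rr (insert t T0 ∪ K ∪ {a, a'}) + rr K ∨
        rr ((P ∩ P') ∪ K ∪ {a}) + rr (insert t (Q ∪ Q') ∪ K ∪ {a'}) =
        rr (insert t T0 ∪ K ∪ {a, a'}) + rr K := by
      omega
    rcases k8 with h | h
    · refine ⟨insert t (P ∪ P'), Q ∩ Q', ?_, ?_, h⟩
      · ext x
        have h1 := hP x
        have h2 := hP' x
        simp
        tauto
      · rw [Finset.disjoint_left]
        intro x hx hx'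
        simp at hx hx'
        rcases hx with hx | hx | hx
        · apply ht
          rw [← hx, hP]
          exact Or.inr hx'.1
        · exact hd x hx hx'.1
        · exact hd' x hx hx'.2
    · refine ⟨P ∩ P', insert t (Q ∪ Q'), ?_, ?_, h⟩
      · ext x
        have h1 := hP x
        have h2 := hP' x
        simp
        tauto
      · rw [Finset.disjoint_left]
        intro x hx' hx
        simp at hx hx'
        rcases hx with hx | hx | hx
        · apply ht
          rw [← hx, hP]
          exact Or.inl hx'.1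
        · exact hd x hx'.1 hx
        · exact hd' x hx'.2 hx

open Classical in
theorem split_rank {V : Type} [AddCommGroup V] [Module ℚ V] (a a' : V) (T : Finset V) :
    ∀ K : Finset V,
      (∃ C : Finset V, K ⊆ C ∧ C ⊆ K ∪ T ∧ a ∉ span ℚ (C : Set V) ∧ a' ∉ span ℚ (C : Set V) ∧
        a' ∈ span ℚ ((C : Set V) ∪ {a})) ∨
      ∃ T' T'' : Finset V, T' ∪ T'' = T ∧ Disjoint T' T'' ∧
        finrank ℚ (span ℚ ((T' : Set V) ∪ (K : Set V) ∪ {a})) +
          finrank ℚ (span ℚ ((T'' : Set V) ∪ (K : Set V) ∪ {a'})) =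
        finrank ℚ (span ℚ ((T : Set V) ∪ (K : Set V) ∪ {a, a'})) +
          finrank ℚ (span ℚ (K : Set V)) := by
  intro K
  rcases split_aux a a' T K with h | ⟨T', T'', h1, h2, h3⟩
  · exact Or.inl h
  · right
    refine ⟨T', T'', h1, h2, ?_⟩
    have e1 : ((T' ∪ K ∪ {a} : Finset V) : Set V) = (T' : Set V) ∪ (K : Set V) ∪ {a} := by
      ext x; simp
    have e2 : ((T'' ∪ K ∪ {a'} : Finset V) : Set V) = (T'' : Set V) ∪ (K : Set V) ∪ {a'} := by
      ext x; simp
    have e3 : ((T ∪ K ∪ {a, a'} : Finset V) : Set V) = (T : Set V) ∪ (K : Set V) ∪ {a, a'} := by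
      ext x; simp
    unfold rr at h3
    rw [e1, e2, e3] at h3
    exact h3

open Classical in
theorem split_or {V : Type} [AddCommGroup V] [Module ℚ V] (a a' : V) (T : Finset V) :
    (∃ C : Finset V, C ⊆ T ∧ a ∉ span ℚ (C : Set V) ∧ a' ∉ span ℚ (C : Set V) ∧
      a' ∈ span ℚ ((C : Set V) ∪ {a})) ∨
    ∃ T' T'' : Finset V, T' ∪ T'' = T ∧ Disjoint T' T'' ∧
      span ℚ ((T' : Set V) ∪ {a}) ⊓ span ℚ ((T'' : Set V) ∪ {a'}) = ⊥ := by
  rcases split_aux a a' T ∅ with ⟨C, _, h2, h3⟩ | ⟨T', T'', h1, h2, h3⟩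
  · left
    exact ⟨C, by simpa using h2, h3⟩
  · right
    refine ⟨T', T'', h1, h2, ?_⟩
    have e0 : rr (∅ : Finset V) = 0 := by
      unfold rr; simp
    rw [e0] at h3
    have e1 : ((T' ∪ ∅ ∪ {a} : Finset V) : Set V) = (T' : Set V) ∪ {a} := by simp
    have e2 : ((T'' ∪ ∅ ∪ {a'} : Finset V) : Set V) = (T'' : Set V) ∪ {a'} := by simp
    have e3 : rr (T' ∪ ∅ ∪ {a} : Finset V) = finrank ℚ (span ℚ ((T' : Set V) ∪ {a})) := by
      unfold rr; rw [e1]
    have e4 : rr (T'' ∪ ∅ ∪ {a'} : Finset V) = finrank ℚ (span ℚ ((T'' : Set V) ∪ {a'})) := by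
      unfold rr; rw [e2]
    have f1 : FiniteDimensional ℚ (span ℚ ((T' : Set V) ∪ {a})) := by
      rw [← e1]; infer_instance
    have f2 : FiniteDimensional ℚ (span ℚ ((T'' : Set V) ∪ {a'})) := by
      rw [← e2]; infer_instance
    have h4 := Submodule.finrank_sup_add_finrank_inf_eq (span ℚ ((T' : Set V) ∪ {a}))
      (span ℚ ((T'' : Set V) ∪ {a'}))
    have h5 : rr (T ∪ ∅ ∪ {a, a'}) =
        finrank ℚ ↥(span ℚ ((T' : Set V) ∪ {a}) ⊔ span ℚ ((T'' : Set V) ∪ {a'})) := by
      have e5 : ((T ∪ ∅ ∪ {a, a'} : Finset V) : Set V) =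
          (T' : Set V) ∪ {a} ∪ ((T'' : Set V) ∪ {a'}) := by
        ext x
        have := Finset.ext_iff.mp h1 x
        simp only [Finset.mem_union] at this
        simp
        tauto
      unfold rr
      rw [e5, span_union]
    have h6 : finrank ℚ ↥(span ℚ ((T' : Set V) ∪ {a}) ⊓ span ℚ ((T'' : Set V) ∪ {a'})) = 0 := by
      omega
    have : FiniteDimensional ℚ
        ↥(span ℚ ((T' : Set V) ∪ {a}) ⊓ span ℚ ((T'' : Set V) ∪ {a'})) :=
      Submodule.finiteDimensional_of_le inf_le_left
    exact Submodule.finrank_eq_zero.mp h6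

end RC.Gut
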