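import Pool.Agent.Helper59.RG.Adj
import Pool.Agent.Helper59.RG.Split

/-!
Module RG-5.  The dichotomy for one side of a separation.  `U = span S ⊓ span T`, `finrank U = 2`.

`third`: choose `C' ⊆ C` minimal such that `b := a' - ρ • a ∈ span C'` (`a' ∈ span (C ∪ {a})`, so
`a' = ρ • a + c`, `c ∈ span C`; `ρ ≠ 0` because `a' ∉ span C`).  `b ≠ 0` (`a, a'` independent),
`b ∉ span {a}`, `b ∉ span {a'}`.  `C'` is independent (minimality) and not empty; let `s ∈ C'`,
`C'' = C'.erase s`; `b ∉ span C''`.  `span C' ⊓ U` contains `b` and does not contain `a`, so it is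
`span {b}` (`finrank U = 2`); hence `span C'' ⊓ U = ⊥`.  By `exists_bs` there is a basis `T1 ⊇ C''`.
`b = μ • s + c''` with `c'' ∈ span C''`, `μ ≠ 0`, so `s - μ⁻¹ • b ∈ span C'' ≤ span T1`:
`u = μ⁻¹ • b` is realised by `s ∈ T`.

`dich`: assume `¬ Good U T`.  Let `T0` be a basis of `T` modulo `U` (`exists_bs` with `C = ∅`).
`Re U T T0` spans `U` (`bs_span`), so it contains two independent vectors `a, a'`; they span `U`.
(1) Every nonzero `u ∈ Re U T T0` is in `span {a}` or `span {a'}`: `S ∪ Re U T T0` is unimodular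
    (`uni_proj`: `span T0 ⊓ span S ≤ span T0 ⊓ U = ⊥`), so by `uni_coord` `u = α • a + β • a'` with
    `α, β ∈ {0, 1, -1}`.  If `α, β ≠ 0` let `p = α • a = ± a`, `q = β • a' = ± a'`, `p + q = u`: all
    pairs are realised by `T0`, so `Good U T`.
(2) `split_or` for `a, a'` and `T` (as a finset).  In the first case `third` gives a basis `T1` and
    `u ∈ Re U T T1`, `u ≠ 0`, not in `span {a}`, `span {a'}`; by `dir_all` there is
    `u' ∈ Re U T T0`, `u' ≠ 0`, `u' ∈ span {u}`; by (1) `u' ∈ span {a}` or `span {a'}`, so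
    `u ∈ span {a}` or `span {a'}`, contradiction.
(3) In the second case `span T' ⊓ span T'' = ⊥`.  `a ∈ span T = span T' ⊔ span T''`, `a = w + w'`;
    `a - w = w' ∈ span (T' ∪ {a}) ⊓ span (T'' ∪ {a'}) = ⊥`, so `a = w ∈ span T'`.  In the same way
    `a' ∈ span T''`.
-/

namespace RC.Gut

open Submodule Module

variable {V : Type} [AddCommGroup V] [Module ℚ V]

/-- A vector `b ≠ 0` of `span C` is in the span of an independent subset `C'` of `C`, but not in the
span of `C'` without `s`. -/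
theorem exists_min_span (C : Finset V) {b : V} (hb : b ∈ span ℚ (C : Set V)) (hb0 : b ≠ 0) :
    ∃ (C' : Finset V) (s : V), C' ⊆ C ∧ s ∈ C' ∧ b ∈ span ℚ (C' : Set V) ∧
      LinearIndepOn ℚ id (C' : Set V) ∧ b ∉ span ℚ ((C' : Set V) \ {s}) := by
  classical
  obtain ⟨B, hBC, hBs, hBl⟩ := exists_linearIndependent ℚ (C : Set V)
  rw [← hBs, mem_span_set] at hb
  obtain ⟨e, he1, he2⟩ := hb
  have hli : LinearIndepOn ℚ id (e.support : Set V) := by
    have h1 : LinearIndepOn ℚ id B := hBl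
    exact h1.mono he1
  have hne : e.support.Nonempty := by
    rw [Finset.nonempty_iff_ne_empty]
    intro h0
    apply hb0
    rw [← he2, Finsupp.sum, h0, Finset.sum_empty]
  obtain ⟨s, hs⟩ := hne
  refine ⟨e.support, s, ?_, hs, ?_, hli, ?_⟩
  · intro x hx
    exact Finset.mem_coe.1 (hBC (he1 (Finset.mem_coe.2 hx)))
  · rw [← he2]
    exact Submodule.sum_mem _ fun x hx => Submodule.smul_mem _ _ (subset_span hx)
  · intro hbs
    have h1 : e s • s ∈ span ℚ ((e.support : Set V) \ {s}) := by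
      have h2 : b = e s • s + ∑ x ∈ e.support.erase s, e x • x := by
        rw [← he2, Finsupp.sum, Finset.add_sum_erase _ (fun x => e x • x) hs]
      have h3 : e s • s = b - ∑ x ∈ e.support.erase s, e x • x := by rw [h2]; abel
      rw [h3]
      refine Submodule.sub_mem _ hbs (Submodule.sum_mem _ fun x hx =>
        Submodule.smul_mem _ _ (subset_span ?_))
      rw [Finset.mem_erase] at hx
      exact ⟨Finset.mem_coe.2 hx.2, hx.1⟩
    have h4 : s ∈ span ℚ ((e.support : Set V) \ {s}) := by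
      have h5 := Submodule.smul_mem _ (e s)⁻¹ h1
      rwa [smul_smul, inv_mul_cancel₀ (Finsupp.mem_support_iff.1 hs), one_smul] at h5
    have h6 := linearIndepOn_iff_notMem_span.1 hli s (Finset.mem_coe.2 hs)
    rw [Set.image_id] at h6
    exact h6 h4

theorem third {U : Submodule ℚ V} (h2 : finrank ℚ U = 2) {T : Set V} (hT : T.Finite) {a a' : V}
    (ha : a ∈ U) (ha' : a' ∈ U) (li : LinearIndependent ℚ ![a, a']) (C : Finset V)
    (hC : (C : Set V) ⊆ T) (h1 : a ∉ span ℚ (C : Set V)) (h1' : a' ∉ span ℚ (C : Set V))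
    (h3 : a' ∈ span ℚ ((C : Set V) ∪ {a})) :
    ∃ (T1 : Finset V) (u : V), Bs U T T1 ∧ u ∈ Re U T T1 ∧ u ≠ 0 ∧ u ∉ span ℚ {a} ∧
      u ∉ span ℚ {a'} := by
  classical
  have li' := LinearIndependent.pair_iff.1 li
  rw [span_union, mem_sup] at h3
  obtain ⟨b, hb, y, hy, hby⟩ := h3
  obtain ⟨ρ, rfl⟩ := mem_span_singleton.1 hy
  have hb' : b = a' - ρ • a := by rw [← hby]; abel
  have hbU : b ∈ U := by
    rw [hb']
    exact Submodule.sub_mem _ ha' (Submodule.smul_mem _ _ ha)
  have hρ : ρ ≠ 0 := by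
    rintro rfl
    apply h1'
    rw [← hby]
    simpa using hb
  have hb0 : b ≠ 0 := by
    intro h0
    have h4 := li' (-ρ) 1 (by rw [← h0, hb']; module)
    exact one_ne_zero h4.2
  obtain ⟨C', s, hC'C, hs, hbC', hli, hbs⟩ := exists_min_span C hb hb0
  have : Module.Finite ℚ U := Module.finite_of_finrank_pos (by rw [h2]; norm_num)
  have hspan : span ℚ {a, a'} = U := by
    apply Submodule.eq_of_le_of_finrank_eq
    · rw [span_le]
      rintro x (rfl | rfl)
      · exact ha
      · exact ha'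
    · rw [h2]
      have h5 := finrank_span_eq_card li
      rw [Matrix.range_cons, Matrix.range_cons, Matrix.range_empty, Set.union_empty,
        Set.singleton_union] at h5
      rw [h5]
      simp
  have herase : ((C'.erase s : Finset V) : Set V) = (C' : Set V) \ {s} := Finset.coe_erase s C'
  have hinf : span ℚ ((C'.erase s : Finset V) : Set V) ⊓ U = ⊥ := by
    rw [eq_bot_iff]
    rintro w ⟨hw1, hw2⟩
    rw [← hspan] at hw2
    obtain ⟨x, y, rfl⟩ := mem_span_pair.1 hw2
    have hw3 : x • a + y • a' ∈ span ℚ (C : Set V) := by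
      refine span_mono ?_ hw1
      rw [herase]
      exact fun z hz => Finset.mem_coe.2 (hC'C (Finset.mem_coe.1 hz.1))
    have h5 : (x + y * ρ) • a ∈ span ℚ (C : Set V) := by
      have h6 : (x + y * ρ) • a = (x • a + y • a') - y • b := by rw [hb']; module
      rw [h6]
      exact Submodule.sub_mem _ hw3 (Submodule.smul_mem _ _ hb)
    have hz : x + y * ρ = 0 := by
      by_contra hne
      apply h1
      have h7 := Submodule.smul_mem _ (x + y * ρ)⁻¹ h5
      rwa [smul_smul, inv_mul_cancel₀ hne, one_smul] at h7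
    have hwb : x • a + y • a' = y • b := by
      have h8 : x = -(y * ρ) := by linarith
      rw [hb', h8]
      module
    rw [hwb] at hw1 ⊢
    by_cases hy0 : y = 0
    · rw [hy0, zero_smul]
      exact Submodule.zero_mem _
    · exfalso
      apply hbs
      have h7 := Submodule.smul_mem _ y⁻¹ hw1
      rw [smul_smul, inv_mul_cancel₀ hy0, one_smul, herase] at h7
      exact h7
  obtain ⟨T1, hT1, hsub⟩ := exists_bs hT (C'.erase s)
    (fun z hz => hC (Finset.mem_coe.2 (hC'C (Finset.mem_of_mem_erase (Finset.mem_coe.1 hz)))))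
    (hli.mono (by rw [herase]; exact Set.sdiff_subset)) hinf
  have hb2 : b ∈ span ℚ (insert s ((C'.erase s : Finset V) : Set V)) := by
    rw [← Finset.coe_insert, Finset.insert_erase hs]
    exact hbC'
  obtain ⟨μ, c, hc, hbc⟩ := mem_span_insert.1 hb2
  have hμ : μ ≠ 0 := by
    rintro rfl
    apply hbs
    rw [hbc, ← herase]
    simpa using hc
  refine ⟨T1, μ⁻¹ • b, hT1, ⟨Submodule.smul_mem _ _ hbU, s, hC (Finset.mem_coe.2 (hC'C hs)), ?_⟩,
    smul_ne_zero (inv_ne_zero hμ) hb0, ?_, ?_⟩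
  · have h5 : s - μ⁻¹ • b = -(μ⁻¹ • c) := by
      rw [hbc, smul_add, smul_smul, inv_mul_cancel₀ hμ, one_smul]
      abel
    rw [h5]
    exact Submodule.neg_mem _ (Submodule.smul_mem _ _
      (span_mono (Finset.coe_subset.2 hsub) hc))
  · intro h
    obtain ⟨t, ht⟩ := mem_span_singleton.1 h
    rw [hb'] at ht
    have h4 := li' (t + μ⁻¹ * ρ) (-μ⁻¹) (by
      have h6 : (t + μ⁻¹ * ρ) • a + (-μ⁻¹) • a' = t • a - μ⁻¹ • (a' - ρ • a) := by module
      rw [h6, ht, sub_self])
    exact inv_ne_zero hμ (neg_eq_zero.1 h4.2)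
  · intro h
    obtain ⟨t, ht⟩ := mem_span_singleton.1 h
    rw [hb'] at ht
    have h4 := li' (μ⁻¹ * ρ) (t - μ⁻¹) (by
      have h6 : (μ⁻¹ * ρ) • a + (t - μ⁻¹) • a' = t • a' - μ⁻¹ • (a' - ρ • a) := by module
      rw [h6, ht, sub_self])
    exact mul_ne_zero (inv_ne_zero hμ) hρ h4.1

theorem dich {S T : Set V} (hT : T.Finite) (hX : Uni (S ∪ T))
    (h2 : finrank ℚ (span ℚ S ⊓ span ℚ T : Submodule ℚ V) = 2) :
    Good (span ℚ S ⊓ span ℚ T) T ∨
      ∃ (T' T'' : Set V) (a a' : V), T' ∪ T'' = T ∧ Disjoint T' T'' ∧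
        LinearIndependent ℚ ![a, a'] ∧ a ∈ span ℚ S ⊓ span ℚ T ∧ a' ∈ span ℚ S ⊓ span ℚ T ∧
        a ∈ span ℚ T' ∧ a' ∈ span ℚ T'' ∧ span ℚ T' ⊓ span ℚ T'' = ⊥ := by
  classical
  by_cases hG : Good (span ℚ S ⊓ span ℚ T) T
  · exact Or.inl hG
  right
  have : Module.Finite ℚ (span ℚ S ⊓ span ℚ T : Submodule ℚ V) :=
    Module.finite_of_finrank_pos (by rw [h2]; norm_num)
  obtain ⟨T0, hT0, -⟩ := exists_bs (U := span ℚ S ⊓ span ℚ T) hT ∅ (by simp) (by simp) (by simp)
  have hsp : span ℚ S ⊓ span ℚ T ≤ span ℚ (Re (span ℚ S ⊓ span ℚ T) T T0) :=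
    bs_span hT0 inf_le_right
  obtain ⟨a, haR, ha0⟩ : ∃ a ∈ Re (span ℚ S ⊓ span ℚ T) T T0, a ≠ 0 := by
    by_contra hcon
    push Not at hcon
    have h3 : span ℚ S ⊓ span ℚ T ≤ ⊥ :=
      hsp.trans (span_le.2 (fun u hu => by rw [hcon u hu]; exact Submodule.zero_mem _))
    rw [le_bot_iff.1 h3, finrank_bot] at h2
    exact absurd h2 (by norm_num)
  obtain ⟨a', ha'R, ha'n⟩ : ∃ a' ∈ Re (span ℚ S ⊓ span ℚ T) T T0, a' ∉ span ℚ {a} := by
    by_contra hcon
    push Not at hcon
    have h3 : span ℚ S ⊓ span ℚ T ≤ span ℚ {a} := hsp.trans (span_le.2 hcon)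
    have h4 := Submodule.finrank_mono h3
    rw [h2, finrank_span_singleton ha0] at h4
    exact absurd h4 (by norm_num)
  have haU := haR.1
  have ha'U := ha'R.1
  have li : LinearIndependent ℚ ![a, a'] := by
    rw [LinearIndependent.pair_iff' ha0]
    intro t ht
    exact ha'n (mem_span_singleton.2 ⟨t, ht⟩)
  have li' := LinearIndependent.pair_iff.1 li
  have hspan : span ℚ {a, a'} = span ℚ S ⊓ span ℚ T := by
    apply Submodule.eq_of_le_of_finrank_eq
    · rw [span_le]
      rintro x (rfl | rfl)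
      · exact haU
      · exact ha'U
    · rw [h2]
      have h5 := finrank_span_eq_card li
      rw [Matrix.range_cons, Matrix.range_cons, Matrix.range_empty, Set.union_empty,
        Set.singleton_union] at h5
      rw [h5]
      simp
  have hdis : span ℚ (T0 : Set V) ⊓ span ℚ S = ⊥ := by
    rw [eq_bot_iff]
    rintro w ⟨hw1, hw2⟩
    rw [← hT0.inf]
    exact ⟨hw1, hw2, span_mono hT0.sub hw1⟩
  have hUR := uni_proj hX hT0.sub hdis
  have hRR : Re (span ℚ S ⊓ span ℚ T) T T0 ⊆
      S ∪ {u : V | u ∈ span ℚ S ∧ ∃ t ∈ T, t - u ∈ span ℚ (T0 : Set V)} :=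
    fun u hu => Or.inr ⟨hu.1.1, hu.2⟩
  -- (1) the realised vectors are on two lines
  have key1 : ∀ u ∈ Re (span ℚ S ⊓ span ℚ T) T T0, u ≠ 0 →
      u ∈ span ℚ {a} ∨ u ∈ span ℚ {a'} := by
    intro u hu hu0
    have hu1 : u ∈ span ℚ {a, a'} := by rw [hspan]; exact hu.1
    obtain ⟨α, β, hαβ⟩ := mem_span_pair.1 hu1
    have h5 := uni_coord hUR ![a, a'] Finset.univ
      (by
        intro i _
        fin_cases i
        · exact hRR haR
        · exact hRR ha'R)
      (by rw [Finset.coe_univ, linearIndepOn_univ_iff]; exact li) ![α, β]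
      (by
        simp only [Fin.sum_univ_two, Matrix.cons_val_zero, Matrix.cons_val_one]
        rw [hαβ]
        exact hRR hu)
    have hα := h5 0 (Finset.mem_univ _)
    have hβ := h5 1 (Finset.mem_univ _)
    simp only [Matrix.cons_val_zero, Matrix.cons_val_one] at hα hβ
    by_cases hα0 : α = 0
    · right
      rw [← hαβ, hα0, zero_smul, zero_add]
      exact mem_span_singleton.2 ⟨β, rfl⟩
    by_cases hβ0 : β = 0
    · left
      rw [← hαβ, hβ0, zero_smul, add_zero]
      exact mem_span_singleton.2 ⟨α, rfl⟩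
    exfalso
    apply hG
    have hα1 : α = 1 ∨ α = -1 := hα.resolve_left hα0
    have hβ1 : β = 1 ∨ β = -1 := hβ.resolve_left hβ0
    have hr1 : α • a ∈ Re (span ℚ S ⊓ span ℚ T) T T0 ∨
        -(α • a) ∈ Re (span ℚ S ⊓ span ℚ T) T T0 := by
      rcases hα1 with h | h
      · left; rw [h, one_smul]; exact haR
      · right; rw [h, neg_smul, one_smul, neg_neg]; exact haR
    have hr2 : β • a' ∈ Re (span ℚ S ⊓ span ℚ T) T T0 ∨
        -(β • a') ∈ Re (span ℚ S ⊓ span ℚ T) T T0 := by
      rcases hβ1 with h | h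
      · left; rw [h, one_smul]; exact ha'R
      · right; rw [h, neg_smul, one_smul, neg_neg]; exact ha'R
    have hr3 : α • a + β • a' ∈ Re (span ℚ S ⊓ span ℚ T) T T0 ∨
        -(α • a + β • a') ∈ Re (span ℚ S ⊓ span ℚ T) T T0 := by
      left; rw [hαβ]; exact hu
    refine ⟨α • a, β • a', ?_, ?_, ⟨T0, hT0, hr1, hr2⟩, ⟨T0, hT0, hr1, hr3⟩,
      ⟨T0, hT0, hr2, hr3⟩⟩
    · rw [LinearIndependent.pair_iff]
      intro s t hst
      rw [smul_smul, smul_smul] at hst
      have h6 := li' (s * α) (t * β) hst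
      exact ⟨(mul_eq_zero.1 h6.1).resolve_right hα0, (mul_eq_zero.1 h6.2).resolve_right hβ0⟩
    · rw [← hspan]
      apply le_antisymm
      · rw [span_le]
        rintro x (rfl | rfl)
        · exact Submodule.smul_mem _ _ (subset_span (by simp))
        · exact Submodule.smul_mem _ _ (subset_span (by simp))
      · rw [span_le]
        rintro x (rfl | rfl)
        · have h7 := Submodule.smul_mem (span ℚ {α • x, β • a'}) α⁻¹
            (subset_span (Set.mem_insert _ _))
          rwa [smul_smul, inv_mul_cancel₀ hα0, one_smul] at h7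
        · have h7 := Submodule.smul_mem (span ℚ {α • a, β • x}) β⁻¹
            (subset_span (Set.mem_insert_of_mem _ (Set.mem_singleton _)))
          rwa [smul_smul, inv_mul_cancel₀ hβ0, one_smul] at h7
  -- a vector on the line of `u' ≠ 0`
  have line : ∀ u u' : V, ∀ d : V, u' ∈ span ℚ {u} → u' ≠ 0 → u' ∈ span ℚ {d} →
      u ∈ span ℚ {d} := by
    intro u u' d h5 h6 h7
    obtain ⟨t, ht⟩ := mem_span_singleton.1 h5
    have ht0 : t ≠ 0 := by
      rintro rfl
      exact h6 (by rw [← ht, zero_smul])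
    have h8 : u = t⁻¹ • u' := by
      rw [← ht, smul_smul, inv_mul_cancel₀ ht0, one_smul]
    rw [h8]
    exact Submodule.smul_mem _ _ h7
  have hTc : ((hT.toFinset : Finset V) : Set V) = T := hT.coe_toFinset
  rcases split_or a a' hT.toFinset with ⟨C, hCT, hC1, hC2, hC3⟩ | ⟨T', T'', hun, hdj, hin⟩
  · exfalso
    have hCT' : (C : Set V) ⊆ T := by
      rw [← hTc]
      exact Finset.coe_subset.2 hCT
    obtain ⟨T1, u, hT1, huR, hu0, hua, hua'⟩ :=
      third h2 hT haU ha'U li C hCT' hC1 hC2 hC3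
    obtain ⟨u', hu'R, hu'0, hu'u⟩ := dir_all hX h2 hG hT1 hT0 huR hu0
    rcases key1 u' hu'R hu'0 with h | h
    · exact hua (line u u' a hu'u hu'0 h)
    · exact hua' (line u u' a' hu'u hu'0 h)
  · have hunT : (T' : Set V) ∪ (T'' : Set V) = T := by
      rw [← hTc, ← hun, Finset.coe_union]
    have hst : span ℚ T = span ℚ (T' : Set V) ⊔ span ℚ (T'' : Set V) := by
      rw [← hunT, span_union]
    have hm1 : ∀ w ∈ span ℚ (T' : Set V), w ∈ span ℚ ((T' : Set V) ∪ {a}) := fun w hw =>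
      span_mono Set.subset_union_left hw
    have hm2 : ∀ w ∈ span ℚ (T'' : Set V), w ∈ span ℚ ((T'' : Set V) ∪ {a'}) := fun w hw =>
      span_mono Set.subset_union_left hw
    have hm3 : a ∈ span ℚ ((T' : Set V) ∪ {a}) :=
      subset_span (Set.mem_union_right _ (Set.mem_singleton _))
    have hm4 : a' ∈ span ℚ ((T'' : Set V) ∪ {a'}) :=
      subset_span (Set.mem_union_right _ (Set.mem_singleton _))
    have hbot : ∀ w, w ∈ span ℚ ((T' : Set V) ∪ {a}) → w ∈ span ℚ ((T'' : Set V) ∪ {a'}) →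
        w = 0 := by
      intro w h5 h6
      have h7 : w ∈ span ℚ ((T' : Set V) ∪ {a}) ⊓ span ℚ ((T'' : Set V) ∪ {a'}) := ⟨h5, h6⟩
      rw [hin] at h7
      exact (Submodule.mem_bot ℚ).1 h7
    refine ⟨(T' : Set V), (T'' : Set V), a, a', hunT, Finset.disjoint_coe.2 hdj, li, haU, ha'U,
      ?_, ?_, ?_⟩
    · have h5 : a ∈ span ℚ T := haU.2
      rw [hst, mem_sup] at h5
      obtain ⟨w, hw, w', hw', hww⟩ := h5
      have h6 : w' = 0 := hbot w' (by
        have h7 : w' = a - w := by rw [← hww]; abel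
        rw [h7]
        exact Submodule.sub_mem _ hm3 (hm1 w hw)) (hm2 w' hw')
      rw [h6, add_zero] at hww
      rw [← hww]
      exact hw
    · have h5 : a' ∈ span ℚ T := ha'U.2
      rw [hst, mem_sup] at h5
      obtain ⟨w, hw, w', hw', hww⟩ := h5
      have h6 : w = 0 := hbot w (hm1 w hw) (by
        have h7 : w = a' - w' := by rw [← hww]; abel
        rw [h7]
        exact Submodule.sub_mem _ hm4 (hm2 w' hw'))
      rw [h6, zero_add] at hww
      rw [← hww]
      exact hw'
    · rw [eq_bot_iff]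
      rintro w ⟨hw1, hw2⟩
      rw [Submodule.mem_bot]
      exact hbot w (hm1 w hw1) (hm2 w hw2)

end RC.Gut
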