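import Pool.Agent.Helper59.RG.Three
import Pool.Agent.Helper73.RCS.Sep
import Pool.Agent.Helper59.RC.Claw

/-!
Module RG-7.  Separations of bad unimodular systems.

`UniC` is the class of all unimodular sets, `cls_uni : Cls UniC` is proved in `RC/Claw.lean`.

`sep_uni`: let `U = span (v '' A) ⊓ span (v '' B)`.  The sets of the statement are the elements of
`A` and of `B` which are not in `U`.
* `finrank U = 0`: `RC.sep1`: `A = ∅` or `B = ∅`.
* `finrank U = 1`: `two_sum` (for `v '' A`, `v '' B`) and `RC.sep2`: `A` or `B` has at most one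
  element.
* `finrank U = 2`.  If `A` or `B` has at most 3 elements, done.  Otherwise `v '' A` is `Good`:
  suppose not, `dich` (with `S = v '' B`, `T = v '' A`) gives `v '' A = T' ∪ T''`.  Let
  `A' = A.filter (v e ∈ T')`, `A'' = A.filter (v e ∈ T'')`, `A = A' ∪ A''`.  By symmetry let `A'` have
  at least two elements (`split_side`).  `span (v '' A') ⊓ span (v '' (A'' ∪ B)) = span {a}`: let
  `y` be in the intersection, `y = w'' + b`, `w'' ∈ span T''`, `b ∈ span (v '' B)`.
  `b = y - w'' ∈ span (v '' A)`, so `b ∈ U = span {a, a'}`, `b = α a + α' a'`;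
  `y - α a = w'' + α' a' ∈ span T' ⊓ span T'' = ⊥`, so `y = α a`.  So the intersection has
  dimension at most 1, and it contains `a ≠ 0`.  By `two_sum` and `sep2` `A'` or `A'' ∪ B` has at
  most one element; but `B` has at least four elements, contradiction.
  In the same way `v '' B` is `Good`.  `three_sum` gives `p, q`, and `RC.sep3` (for the class `UniC`)
  gives the claim: `span (v '' A ∪ {p, q}) = span (v '' A)` because `p, q ∈ U`, the same for `B`, and
  `span {p, q} = U`; for `e ∈ A`, `v e ∉ U` iff `v e ∉ span (v '' B)`.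
-/

namespace RC.Gut

open Submodule Module

/-- The class of all unimodular sets. -/
abbrev UniC : ClsT := fun V _ _ X => Uni X

theorem split_inf {V : Type} [AddCommGroup V] [Module ℚ V] {S' S'' S : Set V} {a a' : V}
    (hU : span ℚ (S' ∪ S'') ⊓ span ℚ S = span ℚ {a, a'})
    (ha : a ∈ span ℚ S') (ha' : a' ∈ span ℚ S'') (h0 : span ℚ S' ⊓ span ℚ S'' = ⊥) :
    span ℚ S' ⊓ span ℚ (S'' ∪ S) = span ℚ {a} := by
  have haU : a ∈ span ℚ (S' ∪ S'') ⊓ span ℚ S := by
    rw [hU]; exact subset_span (by simp)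
  apply le_antisymm
  · rintro y ⟨hy1, hy2⟩
    have hy1' : y ∈ span ℚ S' := hy1
    have hy2' : y ∈ span ℚ (S'' ∪ S) := hy2
    rw [span_union, mem_sup] at hy2'
    obtain ⟨w, hw, b, hbS, hwb⟩ := hy2'
    have hbU : b ∈ span ℚ (S' ∪ S'') ⊓ span ℚ S := by
      refine ⟨?_, hbS⟩
      have h1 : b = y - w := by rw [← hwb]; abel
      rw [h1]
      exact sub_mem (span_mono Set.subset_union_left hy1') (span_mono Set.subset_union_right hw)
    rw [hU, mem_span_pair] at hbU
    obtain ⟨α, β, hαβ⟩ := hbU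
    have h2 : y - α • a ∈ span ℚ S' ⊓ span ℚ S'' := by
      refine ⟨sub_mem hy1' (smul_mem _ _ ha), ?_⟩
      have h3 : y - α • a = w + β • a' := by rw [← hwb, ← hαβ]; abel
      rw [h3]
      exact add_mem hw (smul_mem _ _ ha')
    rw [h0, mem_bot, sub_eq_zero] at h2
    rw [h2]
    exact smul_mem _ _ (mem_span_singleton_self a)
  · rw [span_le, Set.singleton_subset_iff]
    exact ⟨ha, span_mono Set.subset_union_right haU.2⟩

open Classical in
theorem split_side {V : Type} [AddCommGroup V] [Module ℚ V] {h : ℕ}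
    {ι κ : Type} {v : ι → V} {c : ι → κ} {E : Finset ι} {e0 : ι} (hb : Bad UniC h v c E e0)
    (A' A'' B : Finset ι) (hE : A' ∪ A'' ∪ B = E) (hd : Disjoint A' A'') (hd' : Disjoint A' B)
    (hd'' : Disjoint A'' B) {a a' : V} (li : LinearIndependent ℚ ![a, a'])
    (hU : span ℚ (v '' ((A' ∪ A'' : Finset ι) : Set ι)) ⊓ span ℚ (v '' (B : Set ι)) =
      span ℚ {a, a'})
    (ha : a ∈ span ℚ (v '' (A' : Set ι))) (ha' : a' ∈ span ℚ (v '' (A'' : Set ι)))
    (h0 : span ℚ (v '' (A' : Set ι)) ⊓ span ℚ (v '' (A'' : Set ι)) = ⊥)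
    (h2 : 2 ≤ A'.card) (h2' : 2 ≤ B.card) : False := by
  have ha0 : a ≠ 0 := by
    have := li.ne_zero 0
    simpa using this
  rw [Finset.coe_union, Set.image_union] at hU
  have hinf := split_inf hU ha ha' h0
  have hE' : A' ∪ (A'' ∪ B) = E := by rw [← hE, Finset.union_assoc]
  have hdis : Disjoint A' (A'' ∪ B) := Finset.disjoint_union_right.2 ⟨hd, hd'⟩
  have himg : v '' (A'' : Set ι) ∪ v '' (B : Set ι) = v '' ((A'' ∪ B : Finset ι) : Set ι) := by
    rw [Finset.coe_union, Set.image_union]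
  rw [himg] at hinf
  have hX : Uni (v '' (A' : Set ι) ∪ v '' ((A'' ∪ B : Finset ι) : Set ι)) := by
    rw [← Set.image_union, ← Finset.coe_union, hE']
    exact hb.sys.cls
  obtain ⟨p, hp, hsp, hS, hT⟩ := two_sum ((A'.finite_toSet).image v)
    (((A'' ∪ B).finite_toSet).image v) hX (by rw [hinf]; exact finrank_span_singleton ha0)
  rcases sep2 cls_uni hb hE' hdis hp hsp.le hS hT with h | h
  · omega
  · have := Finset.card_le_card (Finset.subset_union_right : B ⊆ A'' ∪ B)
    omega

open Classical in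
theorem good_side {V : Type} [AddCommGroup V] [Module ℚ V] {h : ℕ}
    {ι κ : Type} {v : ι → V} {c : ι → κ} {E : Finset ι} {e0 : ι} (hb : Bad UniC h v c E e0)
    (A B : Finset ι) (hE : A ∪ B = E) (hd : Disjoint A B)
    (hU : finrank ℚ (span ℚ (v '' (B : Set ι)) ⊓ span ℚ (v '' (A : Set ι)) : Submodule ℚ V) = 2)
    (hA : 4 ≤ A.card) (hB : 4 ≤ B.card) :
    Good (span ℚ (v '' (B : Set ι)) ⊓ span ℚ (v '' (A : Set ι))) (v '' (A : Set ι)) := by
  have hX : Uni (v '' (B : Set ι) ∪ v '' (A : Set ι)) := by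
    rw [← Set.image_union, ← Finset.coe_union, Finset.union_comm, hE]
    exact hb.sys.cls
  rcases dich ((A.finite_toSet).image v) hX hU with h | h
  · exact h
  obtain ⟨T', T'', a, a', hTT, hdis, li, haU, ha'U, haT, ha'T, h0⟩ := h
  exfalso
  have hfin : FiniteDimensional ℚ
      (span ℚ (v '' (B : Set ι)) ⊓ span ℚ (v '' (A : Set ι)) : Submodule ℚ V) :=
    Module.finite_of_finrank_pos (by rw [hU]; norm_num)
  have hspan : span ℚ (v '' (B : Set ι)) ⊓ span ℚ (v '' (A : Set ι)) = span ℚ {a, a'} := by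
    symm
    apply Submodule.eq_of_le_of_finrank_eq
    · rw [span_le]
      intro x hx
      simp only [Set.mem_insert_iff, Set.mem_singleton_iff] at hx
      rcases hx with rfl | rfl
      · exact haU
      · exact ha'U
    · rw [hU, finrank_span_pair li]
  set A' := A.filter (fun e => v e ∈ T') with hA'
  set A'' := A.filter (fun e => v e ∉ T') with hA''
  have hun : A' ∪ A'' = A := Finset.filter_union_filter_not_eq _ _
  have hdd : Disjoint A' A'' := Finset.disjoint_filter_filter_not _ _ _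
  have hi' : v '' (A' : Set ι) = T' := by
    ext x
    constructor
    · rintro ⟨e, he, rfl⟩
      exact (Finset.mem_filter.1 (Finset.mem_coe.1 he)).2
    · intro hx
      have hx2 : x ∈ v '' (A : Set ι) := by rw [← hTT]; exact Or.inl hx
      obtain ⟨e, he, rfl⟩ := hx2
      exact ⟨e, Finset.mem_coe.2 (Finset.mem_filter.2 ⟨Finset.mem_coe.1 he, hx⟩), rfl⟩
  have hi'' : v '' (A'' : Set ι) = T'' := by
    ext x
    constructor
    · rintro ⟨e, he, rfl⟩
      have h1 := Finset.mem_filter.1 (Finset.mem_coe.1 he)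
      have h2 : v e ∈ T' ∪ T'' := by rw [hTT]; exact ⟨e, Finset.mem_coe.2 h1.1, rfl⟩
      exact h2.resolve_left h1.2
    · intro hx
      have hx2 : x ∈ v '' (A : Set ι) := by rw [← hTT]; exact Or.inr hx
      obtain ⟨e, he, rfl⟩ := hx2
      exact ⟨e, Finset.mem_coe.2 (Finset.mem_filter.2 ⟨Finset.mem_coe.1 he,
        fun h => Set.disjoint_left.1 hdis h hx⟩), rfl⟩
  have hA'B : Disjoint A' B := Finset.disjoint_of_subset_left (Finset.filter_subset _ _) hd
  have hA''B : Disjoint A'' B := Finset.disjoint_of_subset_left (Finset.filter_subset _ _) hd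
  have hcard : A'.card + A''.card = A.card := by
    rw [← Finset.card_union_of_disjoint hdd, hun]
  rcases Nat.lt_or_ge 1 A'.card with h1 | h1
  · refine split_side hb A' A'' B (by rw [hun, hE]) hdd hA'B hA''B li ?_ ?_ ?_ ?_ h1 (by omega)
    · rw [hun, inf_comm, hspan]
    · rw [hi']; exact haT
    · rw [hi'']; exact ha'T
    · rw [hi', hi'']; exact h0
  · refine split_side hb A'' A' B (by rw [Finset.union_comm A'' A', hun, hE]) hdd.symm hA''B hA'B
      (a := a') (a' := a) ?_ ?_ ?_ ?_ ?_ (by omega) (by omega)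
    · exact LinearIndependent.pair_symm_iff.1 li
    · rw [Finset.union_comm A'' A', hun, inf_comm, hspan, Set.pair_comm]
    · rw [hi'']; exact ha'T
    · rw [hi']; exact haT
    · rw [hi', hi'', inf_comm]; exact h0

open Classical in
theorem sep_uni {V : Type} [AddCommGroup V] [Module ℚ V] {h : ℕ}
    {ι κ : Type} {v : ι → V} {c : ι → κ} {E : Finset ι} {e0 : ι} (hb : Bad UniC h v c E e0)
    (A B : Finset ι) (hE : A ∪ B = E) (hd : Disjoint A B)
    (hU : finrank ℚ (span ℚ (v '' (A : Set ι)) ⊓ span ℚ (v '' (B : Set ι)) : Submodule ℚ V) ≤ 2) :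
    (A.filter (fun e => v e ∉ span ℚ (v '' (B : Set ι)))).card ≤ 3 ∨
      (B.filter (fun e => v e ∉ span ℚ (v '' (A : Set ι)))).card ≤ 3 := by
  have hfA : FiniteDimensional ℚ (span ℚ (v '' (A : Set ι))) :=
    FiniteDimensional.span_of_finite ℚ ((A.finite_toSet).image v)
  have hX : Uni (v '' (A : Set ι) ∪ v '' (B : Set ι)) := by
    rw [← Set.image_union, ← Finset.coe_union, hE]
    exact hb.sys.cls
  have hcA : (A.filter (fun e => v e ∉ span ℚ (v '' (B : Set ι)))).card ≤ A.card :=
    Finset.card_filter_le _ _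
  have hcB : (B.filter (fun e => v e ∉ span ℚ (v '' (A : Set ι)))).card ≤ B.card :=
    Finset.card_filter_le _ _
  by_cases hA3 : A.card ≤ 3
  · exact Or.inl (hcA.trans hA3)
  by_cases hB3 : B.card ≤ 3
  · exact Or.inr (hcB.trans hB3)
  push Not at hA3 hB3
  have hn : finrank ℚ (span ℚ (v '' (A : Set ι)) ⊓ span ℚ (v '' (B : Set ι)) :
      Submodule ℚ V) = 0 ∨
    finrank ℚ (span ℚ (v '' (A : Set ι)) ⊓ span ℚ (v '' (B : Set ι)) : Submodule ℚ V) = 1 ∨
    finrank ℚ (span ℚ (v '' (A : Set ι)) ⊓ span ℚ (v '' (B : Set ι)) : Submodule ℚ V) = 2 := by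
    omega
  rcases hn with h0 | h1 | h2
  · have hfU : FiniteDimensional ℚ
        (span ℚ (v '' (A : Set ι)) ⊓ span ℚ (v '' (B : Set ι)) : Submodule ℚ V) :=
      Submodule.finiteDimensional_of_le inf_le_left
    rw [Submodule.finrank_eq_zero] at h0
    rcases sep1 cls_uni hb hE hd h0 with h | h
    · rw [h] at hA3; simp at hA3
    · rw [h] at hB3; simp at hB3
  · obtain ⟨p, hp, hsp, hS, hT⟩ := two_sum ((A.finite_toSet).image v)
      ((B.finite_toSet).image v) hX h1
    rcases sep2 cls_uni hb hE hd hp hsp.le hS hT with h | h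
    · omega
    · omega
  · have hgB : Good (span ℚ (v '' (A : Set ι)) ⊓ span ℚ (v '' (B : Set ι)))
        (v '' (B : Set ι)) :=
      good_side hb B A (by rw [Finset.union_comm, hE]) hd.symm h2 hB3 hA3
    have hgA : Good (span ℚ (v '' (B : Set ι)) ⊓ span ℚ (v '' (A : Set ι)))
        (v '' (A : Set ι)) :=
      good_side hb A B hE hd (by rw [inf_comm]; exact h2) hA3 hB3
    rw [inf_comm] at hgA
    obtain ⟨p, q, li, hsp, hS, hT⟩ := three_sum hX h2 hgA hgB
    have hpqA : span ℚ {p, q} ≤ span ℚ (v '' (A : Set ι)) := by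
      rw [← hsp]; exact inf_le_left
    have hpqB : span ℚ {p, q} ≤ span ℚ (v '' (B : Set ι)) := by
      rw [← hsp]; exact inf_le_right
    have hle : span ℚ (v '' (A : Set ι) ∪ {p, q}) ⊓ span ℚ (v '' (B : Set ι) ∪ {p, q}) ≤
        span ℚ {p, q} := by
      rw [span_union, span_union, sup_eq_left.2 hpqA, sup_eq_left.2 hpqB, hsp]
    rcases sep3 cls_uni hb hE hd li hle hS hT with h | h
    · left
      refine le_trans (Finset.card_le_card ?_) h
      intro e he
      rw [Finset.mem_filter] at he ⊢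
      exact ⟨he.1, fun h' => he.2 (hpqB h')⟩
    · right
      refine le_trans (Finset.card_le_card ?_) h
      intro e he
      rw [Finset.mem_filter] at he ⊢
      exact ⟨he.1, fun h' => he.2 (hpqA h')⟩

end RC.Gut
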