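import Pool.Agent.Helper59.RG.Dich

/-!
Module RG-6.  3-sums.  `U = span S ⊓ span T`, `finrank U = 2`.

`uni_pairs`: let a finite independent `s ⊆ X ∪ {p, q, p + q}` and `x = ∑ c a • a` in this set
be given.  At most two of `p, q, p + q` are in `s` (they are dependent).  If `x` is one of `p, q, p + q`
and the two others are in `s`, then by independence of `s` the coefficients are `± 1` and `0`.
If `x ∈ {p, q, p + q}` is itself in `s`: the coefficients are `0, 1`.  In all other cases `s ∪ {x}` is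
contained in `X ∪ {d, d'}` for two of the three, and the definition of `Uni` for this set gives
the claim.

`compat`: let `T1` realise `d1, d2` up to signs (`Pr U T d1 d2`) and `S1` realise `e1, e2`
(`Pr U S e1 e2`).  By `uni_proj` `S ∪ Re U T T1` is unimodular (`span T1 ⊓ span S ≤ span T1 ⊓ U`
`= ⊥`).  `span (Re U T T1) = U` (`bs_span`).  Apply `uni_proj` to the sets `Re U T T1` and `S` with
the contracted set `S1` (`span S1 ⊓ U = ⊥`): `Re U T T1 ∪ {u ∈ U | ∃ s ∈ S, s - u ∈ span S1}` is
unimodular, and it contains `d1, d2, e1, e2` up to signs; `uni_mono`.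

`three_sum`: let `p, q` be the triangle for `T` and `p', q'` the triangle for `S`.
(1) `S ∪ {d, d'}` is unimodular for all pairs from `p, q, p + q` (`uni_proj`, `uni_mono`), so
    `S ∪ {p, q, p + q}` is unimodular (`uni_pairs`).  In the same way (`Set.union_comm`, `inf_comm`)
    `T ∪ {p', q', p' + q'}` is unimodular.
(2) `{p, q, p + q} ∪ {p', q', p' + q'}` is unimodular: by `compat` every union of a pair from the
    first and a pair from the second triangle is unimodular; apply `uni_pairs` twice (for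
    `X = {e, e'}` a pair from the second, then for `X = {p, q, p + q}`).
(3) By `uni_plane` (basis `p', q'`) each of `p, q, p + q` is `±` one of `p', q', p' + q'` (they are
    nonzero), so `T ∪ {p, q, p + q}` is unimodular by `uni_mono`.
-/

namespace RC.Gut

open Submodule Module

variable {V : Type} [AddCommGroup V] [Module ℚ V]

theorem uni_pairs {X : Set V} {p q : V} (h1 : Uni (X ∪ {p, q})) (h2 : Uni (X ∪ {p, p + q}))
    (h3 : Uni (X ∪ {q, p + q})) : Uni (X ∪ {p, q, p + q}) := by
  classical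
  intro s c hs hli hx
  have hli0 := linearIndepOn_finset_iff.1 hli
  have hne : ∀ b ∈ s, b ≠ 0 := fun b hb => hli.ne_zero (Finset.mem_coe.2 hb)
  have uniq : ∀ d : V → ℚ, ∑ a ∈ s, c a • a = ∑ a ∈ s, d a • a → ∀ a ∈ s, c a = d a := by
    intro d hd a ha
    have h := hli0 (fun a => c a - d a) (by
      simp only [id, sub_smul, Finset.sum_sub_distrib]
      rw [hd, sub_self]) a ha
    exact sub_eq_zero.1 h
  have single : ∀ d ∈ s, ∑ a ∈ s, (if a = d then (1 : ℚ) else 0) • a = d := by
    intro d hd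
    simp [ite_smul, hd]
  have hmem : ∀ y ∈ X ∪ {p, q, p + q}, y ∈ X ∨ y = p ∨ y = q ∨ y = p + q := by
    intro y hy
    rcases hy with hy | hy
    · exact Or.inl hy
    · right
      simpa using hy
  by_cases hx0 : ∑ a ∈ s, c a • a = 0
  · intro a ha
    left
    have h := uniq (fun _ => 0) (by rw [hx0]; simp) a ha
    exact h
  by_cases hA : p ∉ s ∧ ∑ a ∈ s, c a • a ≠ p
  · refine h3 s c ?_ hli ?_
    · intro a ha
      rcases hmem a (hs ha) with h | h | h | h
      · exact Or.inl h
      · exact absurd (h ▸ Finset.mem_coe.1 ha) hA.1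
      · exact Or.inr (by simp [h])
      · exact Or.inr (by simp [h])
    · rcases hmem _ hx with h | h | h | h
      · exact Or.inl h
      · exact absurd h hA.2
      · exact Or.inr (by rw [h]; simp)
      · exact Or.inr (by rw [h]; simp)
  by_cases hB : q ∉ s ∧ ∑ a ∈ s, c a • a ≠ q
  · refine h2 s c ?_ hli ?_
    · intro a ha
      rcases hmem a (hs ha) with h | h | h | h
      · exact Or.inl h
      · exact Or.inr (by simp [h])
      · exact absurd (h ▸ Finset.mem_coe.1 ha) hB.1
      · exact Or.inr (by simp [h])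
    · rcases hmem _ hx with h | h | h | h
      · exact Or.inl h
      · exact Or.inr (by rw [h]; simp)
      · exact absurd h hB.2
      · exact Or.inr (by rw [h]; simp)
  by_cases hC : p + q ∉ s ∧ ∑ a ∈ s, c a • a ≠ p + q
  · refine h1 s c ?_ hli ?_
    · intro a ha
      rcases hmem a (hs ha) with h | h | h | h
      · exact Or.inl h
      · exact Or.inr (by simp [h])
      · exact Or.inr (by simp [h])
      · exact absurd (h ▸ Finset.mem_coe.1 ha) hC.1
    · rcases hmem _ hx with h | h | h | h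
      · exact Or.inl h
      · exact Or.inr (by rw [h]; simp)
      · exact Or.inr (by rw [h]; simp)
      · exact absurd h hC.2
  have hA' : p ∈ s ∨ ∑ a ∈ s, c a • a = p := by
    by_contra hcon
    push Not at hcon
    exact hA hcon
  have hB' : q ∈ s ∨ ∑ a ∈ s, c a • a = q := by
    by_contra hcon
    push Not at hcon
    exact hB hcon
  have hC' : p + q ∈ s ∨ ∑ a ∈ s, c a • a = p + q := by
    by_contra hcon
    push Not at hcon
    exact hC hcon
  have hp0 : p ≠ 0 := by
    rcases hA' with h | h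
    · exact hne p h
    · rw [← h]; exact hx0
  have hq0 : q ≠ 0 := by
    rcases hB' with h | h
    · exact hne q h
    · rw [← h]; exact hx0
  have hpq : p ≠ q := by
    intro h
    subst h
    have h4 := uni_coord h2 (fun _ : Unit => p) {()} (fun _ _ => Or.inr (by simp))
      (by
        rw [linearIndepOn_finset_iff]
        intro f hf i _
        simp only [Finset.sum_singleton] at hf
        rcases smul_eq_zero.1 hf with h5 | h5
        · exact h5
        · exact absurd h5 hp0) (fun _ => 2)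
      (by
        simp only [Finset.sum_singleton]
        exact Or.inr (by rw [two_smul]; simp)) () (Finset.mem_singleton_self _)
    norm_num at h4
  have h5 : p ≠ p + q := by
    intro h
    exact hq0 (by simpa using h)
  have h6 : q ≠ p + q := by
    intro h
    exact hp0 (by simpa using h)
  have hall : ¬ (p ∈ s ∧ q ∈ s ∧ p + q ∈ s) := by
    rintro ⟨hp, hq, hpq'⟩
    have h7 := hli0 (fun a => (if a = p then (1 : ℚ) else 0) + (if a = q then (1 : ℚ) else 0)
      - (if a = p + q then (1 : ℚ) else 0)) (by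
        simp only [id, sub_smul, add_smul, Finset.sum_sub_distrib, Finset.sum_add_distrib]
        rw [single p hp, single q hq, single (p + q) hpq', sub_self]) (p + q) hpq'
    simp only [if_neg h5.symm, if_neg h6.symm, if_true] at h7
    norm_num at h7
  have hcase : (∑ a ∈ s, c a • a = p ∧ q ∈ s ∧ p + q ∈ s) ∨
      (∑ a ∈ s, c a • a = q ∧ p ∈ s ∧ p + q ∈ s) ∨
      (∑ a ∈ s, c a • a = p + q ∧ p ∈ s ∧ q ∈ s) := by
    rcases hA' with ha | ha
    · rcases hB' with hb | hb
      · rcases hC' with hc | hc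
        · exact absurd ⟨ha, hb, hc⟩ hall
        · exact Or.inr (Or.inr ⟨hc, ha, hb⟩)
      · rcases hC' with hc | hc
        · exact Or.inr (Or.inl ⟨hb, ha, hc⟩)
        · exact absurd (hb.symm.trans hc) h6
    · rcases hB' with hb | hb
      · rcases hC' with hc | hc
        · exact Or.inl ⟨ha, hb, hc⟩
        · exact absurd (ha.symm.trans hc) h5
      · exact absurd (ha.symm.trans hb) hpq
  rcases hcase with ⟨hxe, hs1, hs2⟩ | ⟨hxe, hs1, hs2⟩ | ⟨hxe, hs1, hs2⟩
  · intro a ha
    have h8 := uniq (fun a => (if a = p + q then (1 : ℚ) else 0) - (if a = q then (1 : ℚ) else 0))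
      (by
        simp only [sub_smul, Finset.sum_sub_distrib]
        rw [single _ hs1, single _ hs2, hxe]
        abel) a ha
    rw [h8]
    split_ifs <;> norm_num
  · intro a ha
    have h8 := uniq (fun a => (if a = p + q then (1 : ℚ) else 0) - (if a = p then (1 : ℚ) else 0))
      (by
        simp only [sub_smul, Finset.sum_sub_distrib]
        rw [single _ hs1, single _ hs2, hxe]
        abel) a ha
    rw [h8]
    split_ifs <;> norm_num
  · intro a ha
    have h8 := uniq (fun a => (if a = p then (1 : ℚ) else 0) + (if a = q then (1 : ℚ) else 0))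
      (by
        simp only [add_smul, Finset.sum_add_distrib]
        rw [single _ hs1, single _ hs2, hxe]) a ha
    rw [h8]
    by_cases h9 : a = p
    · have h10 : a ≠ q := by rw [h9]; exact hpq
      rw [if_pos h9, if_neg h10]
      norm_num
    · rw [if_neg h9]
      split_ifs <;> norm_num

theorem re_sub {U : Submodule ℚ V} {T : Set V} {T1 : Finset V} : Re U T T1 ⊆ (U : Set V) :=
  fun _ hu => hu.1

theorem bs_disj {S T : Set V} {T1 : Finset V} (h : Bs (span ℚ S ⊓ span ℚ T) T T1) :
    span ℚ (T1 : Set V) ⊓ span ℚ S = ⊥ := by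
  rw [eq_bot_iff, ← h.inf]
  refine le_inf inf_le_left (le_inf inf_le_right ?_)
  exact inf_le_left.trans (span_mono h.sub)

theorem uni_re {S T : Set V} (hX : Uni (S ∪ T)) {T1 : Finset V}
    (h : Bs (span ℚ S ⊓ span ℚ T) T T1) : Uni (S ∪ Re (span ℚ S ⊓ span ℚ T) T T1) := by
  refine uni_mono (uni_proj hX h.sub (bs_disj h)) ?_
  intro x hx
  right
  left
  rcases hx with hx | hx
  · exact Or.inl hx
  · exact Or.inr ⟨hx.1.1, hx.2⟩

theorem proj_pair {S T : Set V} (hX : Uni (S ∪ T)) {d d' : V}
    (h : Pr (span ℚ S ⊓ span ℚ T) T d d') : Uni (S ∪ {d, d'}) := by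
  obtain ⟨T1, hT1, h1, h2⟩ := h
  refine uni_mono (uni_re hX hT1) ?_
  intro x hx
  right
  rcases hx with hx | hx | hx
  · exact Or.inl (Or.inl hx)
  · rw [hx]
    rcases h1 with h1 | h1
    · exact Or.inl (Or.inr h1)
    · exact Or.inr (Or.inr h1)
  · rw [Set.mem_singleton_iff.1 hx]
    rcases h2 with h2 | h2
    · exact Or.inl (Or.inr h2)
    · exact Or.inr (Or.inr h2)

theorem compat {S T : Set V} (hX : Uni (S ∪ T)) {d1 d2 e1 e2 : V}
    (hT : Pr (span ℚ S ⊓ span ℚ T) T d1 d2) (hS : Pr (span ℚ S ⊓ span ℚ T) S e1 e2) :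
    Uni ({d1, d2} ∪ {e1, e2} : Set V) := by
  obtain ⟨T1, hT1, hd1, hd2⟩ := hT
  obtain ⟨S1, hS1, he1, he2⟩ := hS
  have hu := uni_re hX hT1
  rw [Set.union_comm] at hu
  have hR : span ℚ (Re (span ℚ S ⊓ span ℚ T) T T1) ≤ span ℚ S ⊓ span ℚ T :=
    span_le.2 re_sub
  have h0 : span ℚ (S1 : Set V) ⊓ span ℚ (Re (span ℚ S ⊓ span ℚ T) T T1) = ⊥ := by
    rw [eq_bot_iff, ← hS1.inf]
    exact inf_le_inf_left _ hR
  have hsp : span ℚ S ⊓ span ℚ T ≤ span ℚ (Re (span ℚ S ⊓ span ℚ T) T T1) :=
    bs_span hT1 inf_le_right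
  have hv := uni_proj hu hS1.sub h0
  have hR2 : ∀ u ∈ Re (span ℚ S ⊓ span ℚ T) S S1,
      u ∈ {u : V | u ∈ span ℚ (Re (span ℚ S ⊓ span ℚ T) T T1) ∧
        ∃ t ∈ S, t - u ∈ span ℚ (S1 : Set V)} := fun u hu => ⟨hsp hu.1, hu.2⟩
  refine uni_mono hv ?_
  intro x hx
  right
  rcases hx with (hx | hx) | (hx | hx)
  · rw [hx]
    exact hd1.imp Or.inl Or.inl
  · rw [Set.mem_singleton_iff.1 hx]
    exact hd2.imp Or.inl Or.inl
  · rw [hx]
    exact he1.imp (fun h => Or.inr (hR2 _ h)) (fun h => Or.inr (hR2 _ h))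
  · rw [Set.mem_singleton_iff.1 hx]
    exact he2.imp (fun h => Or.inr (hR2 _ h)) (fun h => Or.inr (hR2 _ h))

theorem three_sum {S T : Set V} (hX : Uni (S ∪ T))
    (h2 : finrank ℚ (span ℚ S ⊓ span ℚ T : Submodule ℚ V) = 2)
    (hS : Good (span ℚ S ⊓ span ℚ T) S) (hT : Good (span ℚ S ⊓ span ℚ T) T) :
    ∃ p q : V, LinearIndependent ℚ ![p, q] ∧ span ℚ S ⊓ span ℚ T = span ℚ {p, q} ∧
      Uni (S ∪ {p, q, p + q}) ∧ Uni (T ∪ {p, q, p + q}) := by
  obtain ⟨p, q, li, hsp, t1, t2, t3⟩ := hT
  obtain ⟨p', q', li', hsp', s1, s2, s3⟩ := hS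
  have hSp : Uni (S ∪ {p, q, p + q}) :=
    uni_pairs (proj_pair hX t1) (proj_pair hX t2) (proj_pair hX t3)
  have hX' : Uni (T ∪ S) := by rw [Set.union_comm]; exact hX
  have hTp' : Uni (T ∪ {p', q', p' + q'}) := by
    have s1' := s1
    have s2' := s2
    have s3' := s3
    rw [inf_comm] at s1' s2' s3'
    exact uni_pairs (proj_pair hX' s1') (proj_pair hX' s2') (proj_pair hX' s3')
  have hpair : ∀ e1 e2 : V, Pr (span ℚ S ⊓ span ℚ T) S e1 e2 →
      Uni ({p, q, p + q} ∪ {e1, e2} : Set V) := by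
    intro e1 e2 he
    rw [Set.union_comm]
    refine uni_pairs ?_ ?_ ?_
    · rw [Set.union_comm]; exact compat hX t1 he
    · rw [Set.union_comm]; exact compat hX t2 he
    · rw [Set.union_comm]; exact compat hX t3 he
  have hall : Uni ({p, q, p + q} ∪ {p', q', p' + q'} : Set V) :=
    uni_pairs (hpair _ _ s1) (hpair _ _ s2) (hpair _ _ s3)
  have hp : p ∈ span ℚ {p', q'} := by
    rw [hsp', ← hsp]
    exact subset_span (by simp)
  have hq : q ∈ span ℚ {p', q'} := by
    rw [hsp', ← hsp]
    exact subset_span (by simp)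
  have key : ∀ x ∈ ({p, q, p + q} : Set V), x ∈ span ℚ {p', q'} →
      x = 0 ∨ x ∈ T ∪ {p', q', p' + q'} ∨ -x ∈ T ∪ {p', q', p' + q'} := by
    intro x hx hxs
    have h := uni_plane hall (p := p') (q := q') (x := x) (Or.inr (by simp)) (Or.inr (by simp))
      (Or.inr (by simp)) li' (Or.inl hx) hxs
    rcases h with h | h | h | h | h | h | h
    · exact Or.inl h
    · exact Or.inr (Or.inl (Or.inr (by simp [h])))
    · exact Or.inr (Or.inr (Or.inr (by simp [h])))
    · exact Or.inr (Or.inl (Or.inr (by simp [h])))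
    · exact Or.inr (Or.inr (Or.inr (by simp [h])))
    · exact Or.inr (Or.inl (Or.inr (by simp [h])))
    · exact Or.inr (Or.inr (Or.inr (by rw [h, neg_neg]; simp)))
  refine ⟨p, q, li, hsp.symm, hSp, uni_mono hTp' ?_⟩
  intro x hx
  rcases hx with hx | hx
  · exact Or.inr (Or.inl (Or.inl hx))
  · refine key x hx ?_
    rcases hx with hx | hx | hx
    · rw [hx]; exact hp
    · rw [hx]; exact hq
    · rw [Set.mem_singleton_iff.1 hx]; exact Submodule.add_mem _ hp hq

end RC.Gut
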